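import Pool.Agent.GCA.Defs

/-!
# Project GCB (minimum rank of almost all graphs, MP_2c4812_co): definitions

`Ω = gr ω` is the orthogonality graph.  Blocks are injective tuples `p : I r → V` (`b = 3 r` vertices in `r` triples)
which are independent in `Ω`.  A pair of blocks is good if at most `m` triples of the second block are bad.
Dimension of a block: `r + 2 m`.
-/

open Finset

namespace GCB

/-- the index set of a block: `r` triples -/
abbrev I (r : ℕ) := Fin r × Fin 3

/-- `M u` is a subset of a triple for each `u`; the triple is bad if `∑ (|M u| - 1)₊ > 2 r` or two elements of the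
triple are together in more than `r` of the sets -/
def BadT {J : Type*} [Fintype J] (r : ℕ) (M : J → Fin 3 → Bool) : Prop :=
  2 * r < ∑ u, ((univ.filter (fun i => M u i = true)).card - 1) ∨
    ∃ i j : Fin 3, i < j ∧ r < (univ.filter (fun u => M u i = true ∧ M u j = true)).card

open Classical in
/-- the pair of blocks is bad: more than `m` triples of `q` are bad with respect to `p` -/
def BadP {V : Type*} (r m : ℕ) (p q : I r → V) (ω : Sym2 V → Bool) : Prop :=
  m < (univ.filter (fun t : Fin r => BadT r (fun (u : I r) (i : Fin 3) => ω s(p u, q (t, i))))).card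

/-- injective tuple of vertices of `W`, independent in `Ω` -/
def IT {V J : Type*} (ω : Sym2 V → Bool) (W : Finset V) (p : J → V) : Prop :=
  (∀ a, p a ∈ W) ∧ ∀ a b, a ≠ b → p a ≠ p b ∧ ω s(p a, p b) = false

/-- a system of pairwise disjoint and pairwise good blocks which covers all but `ℓ` vertices -/
def Sys (n r m ℓ : ℕ) (ω : Sym2 (Fin n) → Bool) : Prop :=
  ∃ (K : ℕ) (P : Fin K → I r → Fin n), (∀ k, IT ω univ (P k)) ∧ (∀ k l, k ≠ l → ∀ a b, P k a ≠ P l b) ∧
    (∀ k l, k ≠ l → ¬ BadP r m (P k) (P l) ω) ∧ n ≤ K * (3 * r) + ℓ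

end GCB
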