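import Pool.Agent.GCB.Defs
import Pool.Agent.GCT.Det

/-!
# GCB-Det: the deterministic theorem in the notation of GCB
-/

open Finset

namespace GCB

/-- a triple which is not bad is good in dimension `r + 2 m` -/
private theorem goodT_of_not_badT {J : Type*} [Fintype J] (r m : ℕ) (hm : 1 ≤ m)
    (M : J → Fin 3 → Bool) (h : ¬ BadT r M) : GCT.GoodT (r + 2 * m) M := by
  unfold BadT at h
  push Not at h
  obtain ⟨h1, h2⟩ := h
  refine ⟨?_, ?_⟩
  · have h3 : ∑ u, (GCT.tr (M u) - 1) ≤ 2 * r := h1
    omega
  · intro a b hab
    rcases lt_or_gt_of_ne hab with h3 | h3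
    · have := h2 a b h3
      omega
    · have h4 := h2 b a h3
      have h5 : (univ.filter (fun u => M u a = true ∧ M u b = true)) =
          (univ.filter (fun u => M u b = true ∧ M u a = true)) := by
        ext u
        simp only [mem_filter, mem_univ, true_and]
        exact and_comm
      rw [h5]
      omega

theorem det {n r m : ℕ} (hr : 1 ≤ r) (hm : 1 ≤ m) (ω : Sym2 (Fin n) → Bool) (K : ℕ)
    (P : Fin K → I r → Fin n) (h1 : ∀ k, IT ω univ (P k))
    (h2 : ∀ k l, k ≠ l → ∀ a b, P k a ≠ P l b) (h3 : ∀ k l, k ≠ l → ¬ BadP r m (P k) (P l) ω) :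
    MrGC.PR (GCA.gr ω) (K * (r + 2 * m) + (n - K * (3 * r))) := by
  classical
  have key := GCT.det_thm (GCA.gr ω) (J := Fin K) r m (by omega) P
    (by
      rintro ⟨i, a⟩ ⟨j, b⟩ hab
      simp only at hab
      by_cases hij : i = j
      · subst hij
        by_cases hne : a = b
        · rw [hne]
        · exact absurd hab ((h1 i).2 a b hne).1
      · exact absurd hab (h2 i j hij a b))
    (by
      intro j a b hadj
      by_cases hne : a = b
      · rw [hne] at hadj
        exact (GCA.gr ω).irrefl hadj
      · have h4 := ((h1 j).2 a b hne).2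
        have h5 : ω s(P j a, P j b) = true := hadj.2
        rw [h4] at h5
        exact Bool.false_ne_true h5)
    (by
      intro i j hij
      left
      have h4 := h3 i j hij
      unfold BadP at h4
      push Not at h4
      refine le_trans ?_ h4
      unfold GCT.nbad
      refine Finset.card_le_card ?_
      intro s hs
      rw [mem_filter] at hs ⊢
      refine ⟨mem_univ _, ?_⟩
      by_contra hb
      apply hs.2
      have h5 := goodT_of_not_badT r m hm _ hb
      have h6 : (fun (u : GCT.Ix r) (q : Fin 3) => GCT.adjm (GCA.gr ω) (P i) (P j) (u, (s, q))) =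
          (fun (u : I r) (q : Fin 3) => ω s(P i u, P j (s, q))) := by
        funext u q
        unfold GCT.adjm
        have h7 : P i u ≠ P j (s, q) := h2 i j hij u (s, q)
        by_cases h8 : ω s(P i u, P j (s, q)) = true
        · rw [h8, decide_eq_true_iff]
          exact ⟨h7, h8⟩
        · rw [Bool.not_eq_true] at h8
          rw [h8, decide_eq_false_iff_not]
          intro h9
          have h10 : ω s(P i u, P j (s, q)) = true := h9.2
          rw [h8] at h10
          exact Bool.false_ne_true h10
      rw [h6]
      exact h5)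
  have h4 : Fintype.card (Fin K) * (r + 2 * m) + (n - 3 * r * Fintype.card (Fin K)) =
      K * (r + 2 * m) + (n - K * (3 * r)) := by
    rw [Fintype.card_fin, Nat.mul_comm (3 * r) K]
  rw [h4] at key
  exact key

end GCB
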