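import Pool.Agent.GCB.PCnt

/-!
# GCB-P-CntI: the count for tuples indexed by `I r`

`cnt` with `k = 3 * r` and transfer along an equivalence `e : I r ≃ Fin (3 * r)` (`Fintype.equivFinOfCardEq`,
`Fintype.card (I r) = r * 3`): `p ↦ p ∘ e` maps the tuples `Fin (3 * r) → Fin n` with `IT ω W p` injectively to the tuples
`I r → Fin n` with `IT ω W` (`Finset.card_le_card_of_injOn`).
-/

open Finset

namespace GCB

open GCA

open Classical in
theorem cntI {n : ℕ} (ω : Sym2 (Fin n) → Bool) {θ τ : ℝ} (hθ : 0 < θ) (hθ' : θ ≤ 1) (h : DegP θ τ ω) (r : ℕ)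
    (W : Finset (Fin n)) (hW : τ ≤ θ ^ (3 * r) * W.card) :
    ((W.card : ℝ) / 2) ^ (3 * r) * θ ^ ((3 * r).choose 2) ≤
      ((univ.filter (fun p : I r → Fin n => IT ω W p)).card : ℝ) := by
  refine (cnt ω hθ hθ' h (3 * r) W hW).trans ?_
  have hc : Fintype.card (I r) = 3 * r := by
    simp [I, Fintype.card_prod, Fintype.card_fin]
    ring
  let e : I r ≃ Fin (3 * r) := Fintype.equivFinOfCardEq hc
  have h1 : (univ.filter (fun p : Fin (3 * r) → Fin n => IT ω W p)).card ≤
      (univ.filter (fun p : I r → Fin n => IT ω W p)).card := by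
    apply Finset.card_le_card_of_injOn (fun p : Fin (3 * r) → Fin n => fun a => p (e a))
    · intro p hp
      simp only [Finset.coe_filter, Finset.mem_univ, true_and, Set.mem_ofPred_eq] at hp ⊢
      exact ⟨fun a => hp.1 (e a), fun a b hab => hp.2 (e a) (e b) (fun hh => hab (e.injective hh))⟩
    · intro p _ q _ hpq
      ext1 a
      have := congrFun hpq (e.symm a)
      simpa using this
  exact_mod_cast h1

end GCB
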