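import Pool.Agent.GCA.PrA
import Pool.Agent.GCB.Defs

/-!
# GCB-P-Fam: a random family meets all large sets
-/

open Finset

namespace GCB

open GCA

open Classical in
private theorem fam_one {T : Type*} [Fintype T] (A : Finset T) (F : ℕ) :
    (univ.filter (fun X : Fin F → T => ∀ k, X k ∉ A)).card = (Fintype.card T - A.card) ^ F := by
  have h : univ.filter (fun X : Fin F → T => ∀ k, X k ∉ A) = Fintype.piFinset (fun _ : Fin F => Aᶜ) := by
    ext X
    simp [Fintype.mem_piFinset]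
  rw [h, Fintype.card_piFinset]
  simp [Finset.card_compl]

private theorem fam_num {n : ℕ} (hn : 3 ≤ n) : (2 : ℝ) ^ n * Real.exp (-(n : ℝ)) ≤ 1 / 2 := by
  have h1 : Real.exp (-(n : ℝ)) = Real.exp (-1) ^ n := by
    rw [← Real.exp_nat_mul]
    congr 1
    ring
  rw [h1, ← mul_pow]
  have h2 : Real.exp (-1) < 0.3678794412 := Real.exp_neg_one_lt_d9
  have h3 : 0 < Real.exp (-1) := Real.exp_pos _
  have h4 : 2 * Real.exp (-1) ≤ 0.74 := by linarith
  have h5 : 0 ≤ 2 * Real.exp (-1) := by positivity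
  calc (2 * Real.exp (-1)) ^ n ≤ (2 * Real.exp (-1)) ^ 3 :=
        pow_le_pow_of_le_one h5 (by linarith) hn
    _ ≤ (0.74 : ℝ) ^ 3 := pow_le_pow_left₀ h5 h4 3
    _ ≤ 1 / 2 := by norm_num

open Classical in
theorem fam {T ι : Type*} [Fintype T] (s : Finset ι) (A : ι → Finset T) (n F : ℕ) (hs : s.card ≤ 2 ^ n)
    (hn : 3 ≤ n) {ρ : ℝ} (hA : ∀ i ∈ s, ρ * (Fintype.card T : ℝ) ≤ ((A i).card : ℝ)) (hF : (n : ℝ) ≤ ρ * F) :
    2 * (univ.filter (fun X : Fin F → T => ∃ i ∈ s, ∀ k, X k ∉ A i)).card ≤ Fintype.card (Fin F → T) := by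
  have hsub : univ.filter (fun X : Fin F → T => ∃ i ∈ s, ∀ k, X k ∉ A i) ⊆
      s.biUnion (fun i => univ.filter (fun X : Fin F → T => ∀ k, X k ∉ A i)) := by
    intro X hX
    obtain ⟨i, hi, h⟩ := (Finset.mem_filter.1 hX).2
    exact Finset.mem_biUnion.2 ⟨i, hi, Finset.mem_filter.2 ⟨Finset.mem_univ _, h⟩⟩
  have h1 : (univ.filter (fun X : Fin F → T => ∃ i ∈ s, ∀ k, X k ∉ A i)).card ≤
      ∑ i ∈ s, (Fintype.card T - (A i).card) ^ F := by
    refine (Finset.card_le_card hsub).trans (Finset.card_biUnion_le.trans (le_of_eq ?_))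
    exact Finset.sum_congr rfl fun i _ => fam_one (A i) F
  have h2 : ∀ i ∈ s, (((Fintype.card T - (A i).card) ^ F : ℕ) : ℝ) ≤
      Real.exp (-(n : ℝ)) * (Fintype.card T : ℝ) ^ F := by
    intro i hi
    have ha : (A i).card ≤ Fintype.card T := Finset.card_le_univ _
    rw [Nat.cast_pow, Nat.cast_sub ha]
    have h3 : (Fintype.card T : ℝ) - ((A i).card : ℝ) ≤ Real.exp (-ρ) * (Fintype.card T : ℝ) := by
      have h4 : 1 - ρ ≤ Real.exp (-ρ) := by
        have := Real.add_one_le_exp (-ρ)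
        linarith
      have h5 := mul_le_mul_of_nonneg_right h4 (Nat.cast_nonneg (α := ℝ) (Fintype.card T))
      have h6 := hA i hi
      linarith
    have h4 : (0 : ℝ) ≤ (Fintype.card T : ℝ) - ((A i).card : ℝ) := by
      have : ((A i).card : ℝ) ≤ (Fintype.card T : ℝ) := by exact_mod_cast ha
      linarith
    refine (pow_le_pow_left₀ h4 h3 F).trans ?_
    rw [mul_pow, ← Real.exp_nat_mul]
    refine mul_le_mul_of_nonneg_right (Real.exp_le_exp.2 ?_) (by positivity)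
    linarith
  have h3 : ((univ.filter (fun X : Fin F → T => ∃ i ∈ s, ∀ k, X k ∉ A i)).card : ℝ) ≤
      1 / 2 * (Fintype.card T : ℝ) ^ F := by
    calc ((univ.filter (fun X : Fin F → T => ∃ i ∈ s, ∀ k, X k ∉ A i)).card : ℝ)
        ≤ ((∑ i ∈ s, (Fintype.card T - (A i).card) ^ F : ℕ) : ℝ) := by exact_mod_cast h1
      _ = ∑ i ∈ s, (((Fintype.card T - (A i).card) ^ F : ℕ) : ℝ) := by push_cast; rfl
      _ ≤ ∑ i ∈ s, Real.exp (-(n : ℝ)) * (Fintype.card T : ℝ) ^ F := Finset.sum_le_sum h2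
      _ = (s.card : ℝ) * (Real.exp (-(n : ℝ)) * (Fintype.card T : ℝ) ^ F) := by
        rw [Finset.sum_const, nsmul_eq_mul]
      _ ≤ (2 : ℝ) ^ n * (Real.exp (-(n : ℝ)) * (Fintype.card T : ℝ) ^ F) := by
        refine mul_le_mul_of_nonneg_right ?_ (by positivity)
        exact_mod_cast hs
      _ = ((2 : ℝ) ^ n * Real.exp (-(n : ℝ))) * (Fintype.card T : ℝ) ^ F := by ring
      _ ≤ 1 / 2 * (Fintype.card T : ℝ) ^ F :=
        mul_le_mul_of_nonneg_right (fam_num hn) (by positivity)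
  have h4 : ((2 * (univ.filter (fun X : Fin F → T => ∃ i ∈ s, ∀ k, X k ∉ A i)).card : ℕ) : ℝ) ≤
      ((Fintype.card (Fin F → T) : ℕ) : ℝ) := by
    rw [Fintype.card_fun, Fintype.card_fin]
    push_cast
    linarith
  exact_mod_cast h4

end GCB
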