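import Pool.Agent.GCB.PThree

/-!
# GCB-P-First: union bound over the pairs of the family

`pr_mono`, `pr_exists` over `univ : Finset (Fin F × Fin F)` and `pr_three`; `card = F * F`.
-/

open Finset

namespace GCB

open GCA

theorem pr_first {n F : ℕ} (r m : ℕ) (X : Fin F → I r → Fin n) :
    pr (fun ω : Sym2 (Fin n) → Bool => ∃ k l, IT ω univ (X k) ∧ IT ω univ (X l) ∧
      (∀ a b, X k a ≠ X l b) ∧ BadP r m (X k) (X l) ω) ≤
      (F : ℝ) ^ 2 * ((1 / 2) ^ (2 * (3 * r).choose 2) * (2 ^ r * (4 * (199 / 200) ^ r) ^ (m + 1))) := by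
  have h1 : pr (fun ω : Sym2 (Fin n) → Bool => ∃ k l, IT ω univ (X k) ∧ IT ω univ (X l) ∧
      (∀ a b, X k a ≠ X l b) ∧ BadP r m (X k) (X l) ω) ≤
      pr (fun ω : Sym2 (Fin n) → Bool => ∃ e ∈ (univ : Finset (Fin F × Fin F)),
        IT ω univ (X e.1) ∧ IT ω univ (X e.2) ∧ (∀ a b, X e.1 a ≠ X e.2 b) ∧ BadP r m (X e.1) (X e.2) ω) := by
    refine pr_mono (fun ω hω => ?_)
    obtain ⟨k, l, h⟩ := hω
    exact ⟨(k, l), mem_univ _, h⟩
  refine h1.trans ((pr_exists _ _).trans ?_)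
  refine (sum_le_sum (fun e _ => pr_three r m (X e.1) (X e.2))).trans ?_
  rw [sum_const, nsmul_eq_mul, card_univ, Fintype.card_prod, Fintype.card_fin]
  push_cast
  rw [pow_two]

end GCB
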