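import Pool.Agent.GCA.PrA
import Pool.Agent.GCB.Defs

/-!
# GCB-P-Fub: averaging over the family

Double counting.  For `ω` with `G ω` at least `card X / 2` of the `x` satisfy `B₁ x ω`, so
`card {ω | G ω} * card X ≤ 2 ∑ ω, #{x | B₁ x ω} = 2 ∑ x, #{ω | B₁ x ω} ≤ 2 card X ε 2 ^ card E`
(`Finset.sum_card_bipartiteAbove_eq_sum_card_bipartiteBelow`, or `Finset.card_filter` and `Finset.sum_comm`).
-/

open Finset

namespace GCB

open GCA

open Classical in
theorem fub {E X : Type*} [Fintype E] [DecidableEq E] [Fintype X] [Nonempty X] (G : (E → Bool) → Prop)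
    (B₁ B₂ : X → (E → Bool) → Prop) {ε : ℝ} (h1 : ∀ x, pr (B₁ x) ≤ ε)
    (h2 : ∀ ω, G ω → 2 * (univ.filter (fun x => B₂ x ω)).card ≤ Fintype.card X)
    (h3 : ∀ ω, G ω → ∀ x, B₁ x ω ∨ B₂ x ω) : pr G ≤ 2 * ε := by
  have hX : (0 : ℝ) < Fintype.card X := by exact_mod_cast Fintype.card_pos
  have hE : (0 : ℝ) < 2 ^ Fintype.card E := by positivity
  have hpr : ∀ R : (E → Bool) → Prop, pr R * 2 ^ Fintype.card E = ((univ.filter R).card : ℝ) := by
    intro R
    unfold pr
    rw [div_mul_cancel₀ _ hE.ne']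
  have h4 : ∀ ω, G ω → (Fintype.card X : ℝ) ≤ 2 * ∑ x, (if B₁ x ω then 1 else 0 : ℝ) := by
    intro ω hω
    have h5 := h2 ω hω
    have h6 : Fintype.card X ≤ (univ.filter (fun x => B₁ x ω)).card + (univ.filter (fun x => B₂ x ω)).card := by
      rw [← card_univ]
      refine le_trans (card_le_card (fun x _ => ?_)) (card_union_le _ _)
      rcases h3 ω hω x with h | h
      · exact mem_union_left _ (mem_filter.2 ⟨mem_univ _, h⟩)
      · exact mem_union_right _ (mem_filter.2 ⟨mem_univ _, h⟩)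
    have h7 : Fintype.card X ≤ 2 * (univ.filter (fun x => B₁ x ω)).card := by omega
    rw [← natCast_card_filter]
    exact_mod_cast h7
  have h5 : ((univ.filter G).card : ℝ) * Fintype.card X ≤ 2 * (Fintype.card X * (ε * 2 ^ Fintype.card E)) := by
    calc ((univ.filter G).card : ℝ) * Fintype.card X = ∑ ω ∈ univ.filter G, (Fintype.card X : ℝ) := by
          rw [sum_const, nsmul_eq_mul]
      _ ≤ ∑ ω ∈ univ.filter G, 2 * ∑ x, (if B₁ x ω then 1 else 0 : ℝ) :=
          sum_le_sum (fun ω hω => h4 ω (mem_filter.1 hω).2)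
      _ ≤ ∑ ω : E → Bool, 2 * ∑ x, (if B₁ x ω then 1 else 0 : ℝ) := by
          refine sum_le_sum_of_subset_of_nonneg (filter_subset _ _) (fun ω _ _ => ?_)
          refine mul_nonneg (by norm_num) (sum_nonneg (fun x _ => ?_))
          split_ifs <;> norm_num
      _ = 2 * ∑ x, ∑ ω : E → Bool, (if B₁ x ω then 1 else 0 : ℝ) := by
          rw [← mul_sum, sum_comm]
      _ ≤ 2 * ∑ x : X, (ε * 2 ^ Fintype.card E) := by
          refine mul_le_mul_of_nonneg_left (sum_le_sum (fun x _ => ?_)) (by norm_num)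
          rw [← natCast_card_filter, ← hpr]
          exact mul_le_mul_of_nonneg_right (h1 x) hE.le
      _ = 2 * (Fintype.card X * (ε * 2 ^ Fintype.card E)) := by
          rw [sum_const, nsmul_eq_mul, card_univ]
  rw [← hpr] at h5
  have h6 : (pr G - 2 * ε) * (Fintype.card X * 2 ^ Fintype.card E) ≤ 0 := by linarith
  have h7 : 0 < (Fintype.card X : ℝ) * 2 ^ Fintype.card E := by positivity
  by_contra hcon
  rw [not_le] at hcon
  have h8 : 0 < (pr G - 2 * ε) * (Fintype.card X * 2 ^ Fintype.card E) := mul_pos (by linarith) h7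
  linarith

end GCB
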