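import Mathlib

/-!
# GCB-P-NumA: numerical estimate for bad pairs

`(199/200) ^ 1000 ≤ 1/128` (`norm_num`; or `(199/200) ^ 100 ≤ 61/100` first), so with `r = 1000 κ m`:
`(199/200) ^ r ≤ (1/2) ^ (7 κ m)`.  For `κ ≥ 1`, `m ≥ 1100`: `2 ^ r (4 (1/2) ^ (7 κ m)) ^ (m + 1) =
2 ^ (1000 κ m + 2 (m + 1)) (1/2) ^ (7 κ m (m + 1)) ≤ (1/2) ^ (6 κ (m + 1) ^ 2)` because
`6 κ (m + 1) ^ 2 + 1000 κ m + 2 (m + 1) ≤ 7 κ m (m + 1)`.
-/

namespace GCB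

private theorem numA_base : ((199 : ℝ) / 200) ^ 1000 ≤ (1 / 2) ^ 7 := by
  have h1 : ((199 : ℝ) / 200) ^ 100 ≤ 61 / 100 := by norm_num
  have h2 : ((199 : ℝ) / 200) ^ 1000 = (((199 : ℝ) / 200) ^ 100) ^ 10 := by
    rw [← pow_mul]
  rw [h2]
  have h3 : (((199 : ℝ) / 200) ^ 100) ^ 10 ≤ (61 / 100) ^ 10 :=
    pow_le_pow_left₀ (by positivity) h1 10
  refine h3.trans ?_
  norm_num

private theorem numA_nat (κ m : ℕ) (hκ : 1 ≤ κ) (hm : 1100 ≤ m) :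
    1000 * κ * m + 2 * (m + 1) + 6 * κ * (m + 1) ^ 2 ≤ 7 * (κ * m) * (m + 1) := by
  obtain ⟨t, rfl⟩ := Nat.exists_eq_add_of_le hm
  obtain ⟨s, rfl⟩ := Nat.exists_eq_add_of_le hκ
  have h : 1000 * (1100 + t) + 2 * (1100 + t + 1) + 6 * (1100 + t + 1) ^ 2 ≤
      7 * (1100 + t) * (1100 + t + 1) := by nlinarith
  have h2 := Nat.mul_le_mul_left (1 + s) h
  have h3 : 2 * (1100 + t + 1) ≤ (1 + s) * (2 * (1100 + t + 1)) :=
    Nat.le_mul_of_pos_left _ (by omega)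
  nlinarith

theorem numA (κ m : ℕ) (hκ : 1 ≤ κ) (hm : 1100 ≤ m) :
    (2 : ℝ) ^ (1000 * κ * m) * (4 * (199 / 200) ^ (1000 * κ * m)) ^ (m + 1) ≤ (1 / 2) ^ (6 * κ * (m + 1) ^ 2) := by
  have h1 : ((199 : ℝ) / 200) ^ (1000 * κ * m) ≤ (1 / 2) ^ (7 * (κ * m)) := by
    rw [mul_assoc, pow_mul _ 1000 (κ * m), pow_mul _ 7 (κ * m)]
    exact pow_le_pow_left₀ (by positivity) numA_base _
  have h2 : (4 * ((199 : ℝ) / 200) ^ (1000 * κ * m)) ^ (m + 1) ≤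
      (4 * (1 / 2) ^ (7 * (κ * m))) ^ (m + 1) :=
    pow_le_pow_left₀ (by positivity) (mul_le_mul_of_nonneg_left h1 (by norm_num)) _
  refine (mul_le_mul_of_nonneg_left h2 (by positivity)).trans ?_
  have h3 : ((4 : ℝ) * (1 / 2) ^ (7 * (κ * m))) ^ (m + 1) =
      2 ^ (2 * (m + 1)) / 2 ^ (7 * (κ * m) * (m + 1)) := by
    rw [mul_pow, one_div, inv_pow, inv_pow, ← pow_mul, ← div_eq_mul_inv]
    congr 1
    rw [pow_mul]
    norm_num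
  rw [h3, ← mul_div_assoc, one_div, inv_pow, ← one_div, div_le_div_iff₀ (by positivity) (by positivity),
    one_mul, ← pow_add, ← pow_add]
  exact pow_le_pow_right₀ (by norm_num) (numA_nat κ m hκ hm)

end GCB
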