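import Pool.Agent.GCB.PDl

/-!
# GCB-P-NumB: numerical estimate for the size of the family

`b = 3 (1000 κ m) = 3000 κ m`.  `1 - x ≥ exp (-2 x)` for `0 ≤ x ≤ 1/2` (here `x = 4 dl κ`; for example
`exp (2 x) ≥ 1 + 2 x` and `(1 + 2 x) (1 - x) ≥ 1`), `b.choose 2 ≤ b ^ 2 / 2 = 4500000 κ ^ 2 m ^ 2`, so
`(1 - 4 dl κ) ^ (b.choose 2) ≥ exp (-(8 dl κ) (4500000 κ ^ 2 m ^ 2)) = exp (-(36/100) κ m ^ 2)`, and
`n ≥ 2 ^ (κ m ^ 2) = exp (κ m ^ 2 log 2) ≥ exp ((69/100) κ m ^ 2)` (`Real.log_two_gt_d9`).  So the right side is at least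
`exp ((33/100) κ m ^ 2)`.  The left side is `(2000 κ) ^ (3000 κ m) = exp (3000 κ m log (2000 κ)) ≤ exp ((33/100) κ m ^ 2)` for
`m ≥ 10 ^ 4 log (2000 κ)`; choose `m0 = ⌈10 ^ 4 log (2000 κ)⌉₊`.
-/

namespace GCB

theorem numB (κ : ℕ) (hκ : 1 ≤ κ) : ∃ m0 : ℕ, ∀ m ≥ m0, ∀ n : ℕ, 2 ^ (κ * m ^ 2) ≤ n →
    (2 * (1000 * κ) : ℝ) ^ (3 * (1000 * κ * m)) ≤ (1 - 4 * dl κ) ^ ((3 * (1000 * κ * m)).choose 2) * n := by
  have hk : (1 : ℝ) ≤ κ := by exact_mod_cast hκ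
  have hk0 : (0 : ℝ) < κ := by linarith
  have hD0 : 0 < dl κ := by unfold dl; positivity
  have hD1 : dl κ ≤ 1 / 10 ^ 8 := by
    unfold dl
    apply one_div_le_one_div_of_le (by norm_num)
    nlinarith
  have hDk : dl κ * κ = 1 / 10 ^ 8 := by
    unfold dl
    field_simp
  obtain ⟨D, hD⟩ : ∃ D, D = dl κ := ⟨_, rfl⟩
  rw [← hD] at hD0 hD1 hDk ⊢
  obtain ⟨L, hL⟩ : ∃ L : ℝ, L = Real.log (2 * (1000 * κ)) := ⟨_, rfl⟩
  refine ⟨⌈10 ^ 4 * L⌉₊, fun m hm n hn => ?_⟩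
  have hmL : 10 ^ 4 * L ≤ m := Nat.ceil_le.1 hm
  have hm0 : (0 : ℝ) ≤ m := Nat.cast_nonneg m
  obtain ⟨b, hb⟩ : ∃ b : ℕ, b = 3 * (1000 * κ * m) := ⟨_, rfl⟩
  rw [← hb]
  have hbR : (b : ℝ) = 3000 * κ * m := by rw [hb]; push_cast; ring
  have hch : ((b.choose 2 : ℕ) : ℝ) ≤ (b : ℝ) ^ 2 / 2 := by
    rw [Nat.cast_choose_two]
    have : (0 : ℝ) ≤ b := Nat.cast_nonneg b
    nlinarith
  -- the factor
  have h1 : Real.exp (-(8 * D)) ≤ 1 - 4 * D := by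
    have e1 : 1 + 8 * D ≤ Real.exp (8 * D) := by
      have := Real.add_one_le_exp (8 * D)
      linarith
    have e2 : 0 < 1 + 8 * D := by linarith
    rw [Real.exp_neg]
    calc (Real.exp (8 * D))⁻¹ ≤ (1 + 8 * D)⁻¹ := inv_anti₀ e2 e1
      _ ≤ 1 - 4 * D := by
        rw [inv_le_iff_one_le_mul₀ e2]
        nlinarith
  have h2 : Real.exp (-(36 / 100 * (κ * m ^ 2))) ≤ (1 - 4 * D) ^ (b.choose 2) := by
    calc Real.exp (-(36 / 100 * (κ * m ^ 2))) ≤ Real.exp ((b.choose 2 : ℕ) * (-(8 * D))) := by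
          apply Real.exp_le_exp.2
          have e3 : (8 * D) * ((b.choose 2 : ℕ) : ℝ) ≤ (8 * D) * ((b : ℝ) ^ 2 / 2) :=
            mul_le_mul_of_nonneg_left hch (by linarith)
          have e4 : (8 * D) * ((b : ℝ) ^ 2 / 2) = 36 / 100 * (κ * m ^ 2) := by
            rw [hbR]
            calc (8 * D) * ((3000 * (κ : ℝ) * m) ^ 2 / 2) = (D * κ) * (36000000 * κ * m ^ 2) := by ring
              _ = _ := by rw [hDk]; ring
          linarith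
      _ = Real.exp (-(8 * D)) ^ (b.choose 2) := by rw [Real.exp_nat_mul]
      _ ≤ _ := pow_le_pow_left₀ (Real.exp_pos _).le h1 _
  have h3 : Real.exp (69 / 100 * (κ * m ^ 2)) ≤ n := by
    calc Real.exp (69 / 100 * (κ * m ^ 2)) ≤ Real.exp (((κ * m ^ 2 : ℕ) : ℝ) * Real.log 2) := by
          apply Real.exp_le_exp.2
          have e5 := Real.log_two_gt_d9
          have e6 : (0 : ℝ) ≤ κ * m ^ 2 := by positivity
          push_cast
          nlinarith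
      _ = 2 ^ (κ * m ^ 2) := by
          rw [Real.exp_nat_mul, Real.exp_log (by norm_num)]
      _ ≤ n := by exact_mod_cast hn
  have h4 : (2 * (1000 * κ) : ℝ) ^ b ≤ Real.exp (33 / 100 * (κ * m ^ 2)) := by
    have e7 : (2 * (1000 * κ) : ℝ) = Real.exp L := by
      rw [hL, Real.exp_log (by positivity)]
    rw [e7, ← Real.exp_nat_mul]
    apply Real.exp_le_exp.2
    rw [hbR]
    have e8 : (κ : ℝ) * m * (10 ^ 4 * L) ≤ κ * m * m :=
      mul_le_mul_of_nonneg_left hmL (by positivity)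
    have e9 : (0 : ℝ) ≤ κ * m * m := by positivity
    nlinarith
  calc (2 * (1000 * κ) : ℝ) ^ b ≤ Real.exp (33 / 100 * (κ * m ^ 2)) := h4
    _ = Real.exp (-(36 / 100 * (κ * m ^ 2))) * Real.exp (69 / 100 * (κ * m ^ 2)) := by
        rw [← Real.exp_add]; congr 1; ring
    _ ≤ (1 - 4 * D) ^ (b.choose 2) * n := by
        apply mul_le_mul h2 h3 (Real.exp_pos _).le
        apply pow_nonneg
        linarith

end GCB
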