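import Pool.Agent.GCB.PDl

/-!
# GCB-P-NumC: numerical estimate for the threshold

The left side is `2 √n / dl κ ^ 2`; `1/2 - 2 dl κ ≥ 1/4`, so the right side is at least `(1/4) ^ (3000 κ m) n / (1000 κ)`.
It is enough that `C * 4 ^ (3000 κ m) ≤ √n` with `C = 2000 κ / dl κ ^ 2` (then multiply by `√n`, `√n * √n = n`), that is
`C ^ 2 * 16 ^ (3000 κ m) ≤ n` (`Real.le_sqrt`).  Choose `m0 ≥ 12001` with `C ^ 2 ≤ 2 ^ m0` (`pow_unbounded_of_one_lt`); for `m ≥ m0`: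
`C ^ 2 * 16 ^ (3000 κ m) ≤ 2 ^ m * 2 ^ (12000 κ m) ≤ 2 ^ (κ m ^ 2) ≤ n` because `m + 12000 κ m ≤ 12001 κ m ≤ κ m ^ 2`.
-/

namespace GCB

theorem numC (κ : ℕ) (hκ : 1 ≤ κ) : ∃ m0 : ℕ, ∀ m ≥ m0, ∀ n : ℕ, 2 ^ (κ * m ^ 2) ≤ n →
    2 * (√(n : ℝ) / dl κ) / dl κ ≤ (1 / 2 - 2 * dl κ) ^ (3 * (1000 * κ * m)) * ((n : ℝ) / (1000 * κ)) := by
  have hk : (1 : ℝ) ≤ κ := by exact_mod_cast hκ
  have hk0 : (0 : ℝ) < κ := by linarith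
  have hD0 : 0 < dl κ := by unfold dl; positivity
  have hD1 : dl κ ≤ 1 / 10 ^ 8 := by
    unfold dl
    apply one_div_le_one_div_of_le (by norm_num)
    nlinarith
  obtain ⟨D, hD⟩ : ∃ D, D = dl κ := ⟨_, rfl⟩
  rw [← hD] at hD0 hD1 ⊢
  obtain ⟨C, hC⟩ : ∃ C : ℝ, C = 2000 * κ / D ^ 2 := ⟨_, rfl⟩
  have hC0 : 0 < C := by rw [hC]; positivity
  obtain ⟨m1, hm1⟩ := pow_unbounded_of_one_lt (C ^ 2) (by norm_num : (1 : ℝ) < 2)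
  refine ⟨max m1 12001, fun m hm n hn => ?_⟩
  have hmm1 : m1 ≤ m := (le_max_left _ _).trans hm
  have hmm2 : 12001 ≤ m := (le_max_right _ _).trans hm
  have h1 : C ^ 2 ≤ 2 ^ m := hm1.le.trans (pow_le_pow_right₀ (by norm_num) hmm1)
  have h2 : m + 12000 * κ * m ≤ κ * m ^ 2 := by nlinarith [Nat.mul_le_mul hκ (le_refl m), Nat.mul_le_mul_left (κ * m) hmm2]
  have h3 : (C * 4 ^ (3000 * κ * m)) ^ 2 ≤ (n : ℝ) := by
    calc (C * 4 ^ (3000 * κ * m)) ^ 2 = C ^ 2 * 2 ^ (12000 * κ * m) := by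
          rw [mul_pow, ← pow_mul, show (4 : ℝ) = 2 ^ 2 by norm_num, ← pow_mul]
          congr 2; ring
      _ ≤ 2 ^ m * 2 ^ (12000 * κ * m) := by gcongr
      _ = 2 ^ (m + 12000 * κ * m) := by rw [pow_add]
      _ ≤ 2 ^ (κ * m ^ 2) := pow_le_pow_right₀ (by norm_num) h2
      _ ≤ n := by exact_mod_cast hn
  have h4 : C * 4 ^ (3000 * κ * m) ≤ √(n : ℝ) := Real.le_sqrt_of_sq_le h3
  have h5 : (1 / 4 : ℝ) ^ (3000 * κ * m) ≤ (1 / 2 - 2 * D) ^ (3 * (1000 * κ * m)) := by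
    rw [show 3 * (1000 * κ * m) = 3000 * κ * m by ring]
    apply pow_le_pow_left₀ (by norm_num)
    linarith
  have h6 : √(n : ℝ) * √(n : ℝ) = n := Real.mul_self_sqrt (Nat.cast_nonneg n)
  have h7 : (1 / 4 : ℝ) ^ (3000 * κ * m) * 4 ^ (3000 * κ * m) = 1 := by
    rw [← mul_pow]; norm_num
  have h8 : 0 ≤ √(n : ℝ) := Real.sqrt_nonneg _
  calc 2 * (√(n : ℝ) / D) / D = (C * √(n : ℝ)) / (1000 * κ) := by rw [hC]; field_simp; ring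
    _ = (1 / 4 : ℝ) ^ (3000 * κ * m) * ((C * 4 ^ (3000 * κ * m)) * √(n : ℝ)) / (1000 * κ) := by
        rw [show (1 / 4 : ℝ) ^ (3000 * κ * m) * ((C * 4 ^ (3000 * κ * m)) * √(n : ℝ)) =
          ((1 / 4 : ℝ) ^ (3000 * κ * m) * 4 ^ (3000 * κ * m)) * (C * √(n : ℝ)) by ring, h7, one_mul]
    _ ≤ (1 / 4 : ℝ) ^ (3000 * κ * m) * (√(n : ℝ) * √(n : ℝ)) / (1000 * κ) := by gcongr
    _ = (1 / 4 : ℝ) ^ (3000 * κ * m) * ((n : ℝ) / (1000 * κ)) := by rw [h6]; ring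
    _ ≤ _ := by gcongr

end GCB
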