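import Pool.Agent.GCB.Defs

/-!
# GCB-P-Sel: from the family to a system of blocks

Let `C` be a finset of indices of maximal cardinality among those with `∀ k ∈ C, IT ω univ (X k)` and
`∀ k l ∈ C, k ≠ l → ∀ a b, X k a ≠ X l b` (`Finset.exists_max_image` on `univ.powerset.filter ..`; the empty set is one).
`W = {v | ∀ k ∈ C, ∀ a, X k a ≠ v}`.  If `n ≤ R * card W`, `h1` gives `k` with `IT ω W (X k)`; `k ∉ C` (`r ≥ 1`: `X k (0, 0) ∈ W`)
and `insert k C` contradicts the maximality.  So `R * card W < n`, `card W ≤ n / R`.  `K = card C`,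
`P j = X (C.equivFin.symm j)` (or `C.orderEmbOfFin`).  The complement of `W` is the image of `Fin K × I r` under
`(j, a) ↦ P j a`, so `n ≤ K * (3 * r) + card W` (`Finset.card_image_le`, `card (I r) = r * 3`).
-/

open Finset

namespace GCB

theorem sel {n r m R F : ℕ} (hr : 1 ≤ r) (hR : 1 ≤ R) (ω : Sym2 (Fin n) → Bool) (X : Fin F → I r → Fin n)
    (h1 : ∀ W : Finset (Fin n), n ≤ R * W.card → ∃ k, IT ω W (X k))
    (h2 : ∀ k l, IT ω univ (X k) → IT ω univ (X l) → (∀ a b, X k a ≠ X l b) → ¬ BadP r m (X k) (X l) ω) :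
    Sys n r m (n / R) ω := by
  classical
  obtain ⟨C, hC1, hC2, hCmax⟩ : ∃ C : Finset (Fin F), (∀ k ∈ C, IT ω univ (X k)) ∧
      (∀ k ∈ C, ∀ l ∈ C, k ≠ l → ∀ a b, X k a ≠ X l b) ∧
      ∀ C' : Finset (Fin F), (∀ k ∈ C', IT ω univ (X k)) →
        (∀ k ∈ C', ∀ l ∈ C', k ≠ l → ∀ a b, X k a ≠ X l b) → C'.card ≤ C.card := by
    obtain ⟨S, hS⟩ : ∃ S : Finset (Finset (Fin F)), ∀ C, C ∈ S ↔ (∀ k ∈ C, IT ω univ (X k)) ∧
        (∀ k ∈ C, ∀ l ∈ C, k ≠ l → ∀ a b, X k a ≠ X l b) :=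
      ⟨(Set.toFinite {C : Finset (Fin F) | (∀ k ∈ C, IT ω univ (X k)) ∧
        (∀ k ∈ C, ∀ l ∈ C, k ≠ l → ∀ a b, X k a ≠ X l b)}).toFinset, fun C => by
          rw [Set.Finite.mem_toFinset]; rfl⟩
    obtain ⟨C, hC, hm⟩ := Finset.exists_max_image S Finset.card ⟨∅, (hS ∅).2 ⟨by simp, by simp⟩⟩
    rw [hS] at hC
    exact ⟨C, hC.1, hC.2, fun C' h3 h4 => hm C' ((hS C').2 ⟨h3, h4⟩)⟩
  obtain ⟨W, hWdef⟩ : ∃ W : Finset (Fin n), ∀ v, v ∈ W ↔ ∀ k ∈ C, ∀ a, X k a ≠ v :=
    ⟨univ.filter (fun v => ∀ k ∈ C, ∀ a, X k a ≠ v), fun v => by simp⟩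
  have hW : R * W.card < n := by
    by_contra hcon
    obtain ⟨k, hk⟩ := h1 W (not_lt.1 hcon)
    have hk0 : k ∉ C := fun hkC => (hWdef _).1 (hk.1 (⟨0, hr⟩, 0)) k hkC _ rfl
    have h3 := hCmax (insert k C) (by
      intro l hl
      rcases Finset.mem_insert.1 hl with rfl | hl
      · exact ⟨fun _ => Finset.mem_univ _, hk.2⟩
      · exact hC1 l hl) (by
      intro l hl l' hl' hne a b
      rcases Finset.mem_insert.1 hl with rfl | hl
      · rcases Finset.mem_insert.1 hl' with rfl | hl'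
        · exact absurd rfl hne
        · exact ((hWdef _).1 (hk.1 a) l' hl' b).symm
      · rcases Finset.mem_insert.1 hl' with h6 | hl'
        · rw [h6]
          exact (hWdef _).1 (hk.1 b) l hl a
        · exact hC2 l hl l' hl' hne a b)
    rw [Finset.card_insert_of_notMem hk0] at h3
    omega
  have hWle : W.card ≤ n / R := by
    rw [Nat.le_div_iff_mul_le (by omega), Nat.mul_comm]
    exact hW.le
  refine ⟨C.card, fun j => X (C.equivFin.symm j), ?_, ?_, ?_, ?_⟩
  · exact fun j => hC1 _ (C.equivFin.symm j).2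
  · intro j l hjl a b
    refine hC2 _ (C.equivFin.symm j).2 _ (C.equivFin.symm l).2 (fun h3 => hjl ?_) a b
    exact C.equivFin.symm.injective (Subtype.ext h3)
  · intro j l hjl
    refine h2 _ _ (hC1 _ (C.equivFin.symm j).2) (hC1 _ (C.equivFin.symm l).2) (fun a b => ?_)
    refine hC2 _ (C.equivFin.symm j).2 _ (C.equivFin.symm l).2 (fun h3 => hjl ?_) a b
    exact C.equivFin.symm.injective (Subtype.ext h3)
  · have hcov : (univ : Finset (Fin n)) ⊆
        ((univ : Finset (Fin C.card × I r)).image (fun q => X (C.equivFin.symm q.1) q.2)) ∪ W := by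
      intro v _
      by_cases hv : v ∈ W
      · exact Finset.mem_union_right _ hv
      · refine Finset.mem_union_left _ ?_
        rw [hWdef] at hv
        push Not at hv
        obtain ⟨k, hk, a, ha⟩ := hv
        refine Finset.mem_image.2 ⟨(C.equivFin ⟨k, hk⟩, a), Finset.mem_univ _, ?_⟩
        simp [ha]
    have h3 := Finset.card_le_card hcov
    have h4 := h3.trans (Finset.card_union_le _ _)
    have h5 : ((univ : Finset (Fin C.card × I r)).image
        (fun q => X (C.equivFin.symm q.1) q.2)).card ≤ C.card * (3 * r) := by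
      refine Finset.card_image_le.trans (le_of_eq ?_)
      rw [Finset.card_univ, Fintype.card_prod, Fintype.card_prod, Fintype.card_fin, Fintype.card_fin,
        Fintype.card_fin, Nat.mul_comm r 3]
    rw [Finset.card_univ, Fintype.card_fin] at h4
    omega

end GCB
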