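import Pool.Agent.GCA.Transfer
import Pool.Agent.GCB.PFirst
import Pool.Agent.GCB.PCntI
import Pool.Agent.GCB.PFam
import Pool.Agent.GCB.PFub
import Pool.Agent.GCB.PNumA
import Pool.Agent.GCB.PNumB
import Pool.Agent.GCB.PNumC
import Pool.Agent.GCB.PSel
import Pool.Agent.GCB.Det

/-!
# GCB-Main: assembly
-/

open Finset Filter Topology

namespace GCB

open GCA

theorem dl_pos (κ : ℕ) (hκ : 1 ≤ κ) : 0 < dl κ := by
  unfold dl
  have : (1 : ℝ) ≤ κ := by exact_mod_cast hκ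
  positivity

theorem dl_le (κ : ℕ) (hκ : 1 ≤ κ) : dl κ ≤ 1 / 10 ^ 8 := by
  unfold dl
  have : (1 : ℝ) ≤ κ := by exact_mod_cast hκ
  apply one_div_le_one_div_of_le (by positivity)
  linarith

/-- almost all graphs have a good system of blocks -/
theorem sys_pr (κ : ℕ) (hκ : 1 ≤ κ) : ∃ m0 : ℕ, ∀ m ≥ m0, ∀ n : ℕ, 2 ^ (κ * m ^ 2) ≤ n → n < 2 ^ (κ * (m + 1) ^ 2) →
    pr (fun ω : Sym2 (Fin n) → Bool => ¬ Sys n (1000 * κ * m) m (n / (1000 * κ)) ω) ≤
      (3 / 5) ^ n + 2 / (n : ℝ) ^ 2 := by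
  classical
  obtain ⟨m1, h1⟩ := numB κ hκ
  obtain ⟨m2, h2⟩ := numC κ hκ
  refine ⟨max (max m1 m2) 1100, fun m hm n hn hn' => ?_⟩
  have hm1 : m1 ≤ m := le_trans (le_trans (le_max_left _ _) (le_max_left _ _)) hm
  have hm2 : m2 ≤ m := le_trans (le_trans (le_max_right _ _) (le_max_left _ _)) hm
  have hm3 : 1100 ≤ m := le_trans (le_max_right _ _) hm
  have hB := h1 m hm1 n hn
  have hC := h2 m hm2 n hn
  have hδ := dl_pos κ hκ
  have hδ' := dl_le κ hκ
  have hκ' : (1 : ℝ) ≤ κ := by exact_mod_cast hκ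
  have hn3 : 3 ≤ n := by
    refine le_trans ?_ hn
    have h3 : 2 ≤ κ * m ^ 2 := by
      have h4 : 1 * 1100 ^ 2 ≤ κ * m ^ 2 := Nat.mul_le_mul hκ (Nat.pow_le_pow_left hm3 2)
      omega
    calc 3 ≤ 2 ^ 2 := by norm_num
      _ ≤ 2 ^ (κ * m ^ 2) := Nat.pow_le_pow_right (by norm_num) h3
  have hnR : (3 : ℝ) ≤ n := by exact_mod_cast hn3
  set δ := dl κ with hδdef
  set r := 1000 * κ * m with hr
  set τ : ℝ := √(n : ℝ) / δ with hτ
  have hr1 : 1 ≤ r := by
    have : 1 * 1 * 1 ≤ 1000 * κ * m := Nat.mul_le_mul (Nat.mul_le_mul (by norm_num) hκ) (by omega)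
    simpa using this
  have hsq : (1 : ℝ) ≤ √(n : ℝ) := by
    rw [Real.one_le_sqrt]; linarith
  have hτ1 : 1 ≤ τ := by
    rw [hτ, le_div_iff₀ hδ]
    have : δ ≤ 1 := hδ'.trans (by norm_num)
    linarith
  have hδτ : (δ * τ) ^ 2 = n := by
    rw [hτ, mul_div_cancel₀ _ hδ.ne', Real.sq_sqrt (by positivity)]
  have hT := pr_typ n hδ (by linarith : (0 : ℝ) ≤ τ) hδτ.ge
  -- the family
  set C := (3 * r).choose 2 with hCdef
  set F := 2 ^ C * n ^ 2 with hF
  set θ : ℝ := 1 / 2 - 2 * δ with hθ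
  have hθ0 : 0 < θ := by
    rw [hθ]
    have : δ ≤ 1 / 10 ^ 8 := hδ'
    norm_num at this ⊢
    linarith
  have hθ1 : θ ≤ 1 := by rw [hθ]; linarith
  have hne : Nonempty (Fin F → I r → Fin n) := ⟨fun _ _ => ⟨0, by omega⟩⟩
  have hfub : pr (fun ω : Sym2 (Fin n) → Bool => Typ δ τ ω ∧ ¬ Sys n r m (n / (1000 * κ)) ω) ≤
      2 * (1 / (n : ℝ) ^ 2) := by
    refine fub (X := Fin F → I r → Fin n)
      (fun ω : Sym2 (Fin n) → Bool => Typ δ τ ω ∧ ¬ Sys n r m (n / (1000 * κ)) ω)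
      (fun X ω => ∃ k l, IT ω univ (X k) ∧ IT ω univ (X l) ∧
        (∀ a b, X k a ≠ X l b) ∧ BadP r m (X k) (X l) ω)
      (fun X ω => ∃ W ∈ (univ.filter (fun W : Finset (Fin n) => n ≤ 1000 * κ * W.card)),
        ∀ k, X k ∉ (univ.filter (fun p : I r → Fin n => IT ω W p))) ?_ ?_ ?_
    · intro X
      refine (pr_first r m X).trans ?_
      have hA := numA κ m hκ hm3
      have h3 : (F : ℝ) ^ 2 * (1 / 2) ^ (2 * C) = (n : ℝ) ^ 4 := by
        rw [hF]
        push_cast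
        rw [mul_pow, ← pow_mul, ← pow_mul, mul_comm C 2, mul_right_comm, ← mul_pow]
        norm_num
      have h4 : (n : ℝ) ^ 6 ≤ 2 ^ (6 * κ * (m + 1) ^ 2) := by
        have h5 : (n : ℝ) ≤ 2 ^ (κ * (m + 1) ^ 2) := by exact_mod_cast hn'.le
        calc (n : ℝ) ^ 6 ≤ (2 ^ (κ * (m + 1) ^ 2)) ^ 6 := by gcongr
          _ = 2 ^ (6 * κ * (m + 1) ^ 2) := by rw [← pow_mul]; congr 1; ring
      rw [← mul_assoc, h3, ← hr] at *
      have h6 : (1 / 2 : ℝ) ^ (6 * κ * (m + 1) ^ 2) ≤ 1 / (n : ℝ) ^ 6 := by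
        rw [one_div, inv_pow, ← one_div]
        exact one_div_le_one_div_of_le (by positivity) h4
      calc (n : ℝ) ^ 4 * (2 ^ r * (4 * (199 / 200) ^ r) ^ (m + 1)) ≤ (n : ℝ) ^ 4 * (1 / (n : ℝ) ^ 6) := by
            gcongr
            exact hA.trans h6
        _ = 1 / (n : ℝ) ^ 2 := by
            have : (n : ℝ) ≠ 0 := by positivity
            field_simp
    · intro ω hω
      have hdeg := degP_of_typ hδ (hδ'.trans (by norm_num)) hτ1 ω hω.1
      refine le_trans (le_of_eq ?_) (fam (univ.filter (fun W : Finset (Fin n) => n ≤ 1000 * κ * W.card))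
        (fun W => univ.filter (fun p : I r → Fin n => IT ω W p)) n F ?_ hn3
        (ρ := (1 / (2 * (1000 * κ))) ^ (3 * r) * θ ^ C) ?_ ?_)
      · congr
      · refine (card_filter_le _ _).trans ?_
        rw [card_univ, Fintype.card_finset, Fintype.card_fin]
      · intro W hW
        have hW1 : (n : ℝ) ≤ 1000 * κ * W.card := by exact_mod_cast (mem_filter.1 hW).2
        have hW2 : (n : ℝ) / (1000 * κ) ≤ W.card := by
          rw [div_le_iff₀ (by positivity)]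
          linarith
        have h5 : 2 * τ / δ ≤ θ ^ (3 * r) * W.card := by
          refine hC.trans ?_
          gcongr
        refine le_trans ?_ (cntI ω hθ0 hθ1 hdeg r W h5)
        have h6 : (Fintype.card (I r → Fin n) : ℝ) = (n : ℝ) ^ (3 * r) := by
          rw [Fintype.card_fun, Fintype.card_fin, Fintype.card_prod, Fintype.card_fin, Fintype.card_fin]
          push_cast
          rw [mul_comm r 3]
        rw [h6, mul_right_comm, ← mul_pow]
        gcongr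
        calc 1 / (2 * (1000 * (κ : ℝ))) * n = n / (1000 * κ) / 2 := by
              field_simp
          _ ≤ W.card / 2 := by gcongr
      · rw [hF]
        push_cast
        have h7 : (2 * (1000 * (κ : ℝ))) ^ (3 * r) ≤ (2 * θ) ^ C * n := by
          refine hB.trans (le_of_eq ?_)
          congr 2
          rw [hθ]; ring
        have h8 : (0 : ℝ) < (2 * (1000 * (κ : ℝ))) ^ (3 * r) := by positivity
        calc (n : ℝ) = (1 / (2 * (1000 * κ))) ^ (3 * r) * (2 * (1000 * (κ : ℝ))) ^ (3 * r) * n := by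
              rw [← mul_pow, one_div, inv_mul_cancel₀ (by positivity), one_pow, one_mul]
          _ ≤ (1 / (2 * (1000 * κ))) ^ (3 * r) * ((2 * θ) ^ C * n) * n := by gcongr
          _ = (1 / (2 * (1000 * κ))) ^ (3 * r) * θ ^ C * (2 ^ C * n ^ 2) := by
              rw [mul_pow]; ring
    · intro ω hω X
      by_contra hcon
      rw [not_or] at hcon
      obtain ⟨hc1, hc2⟩ := hcon
      refine hω.2 (sel hr1 ?_ ω X ?_ ?_)
      · exact Nat.mul_le_mul (show 1 ≤ 1000 by norm_num) hκ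
      · intro W hW
        by_contra hk
        apply hc2
        refine ⟨W, mem_filter.2 ⟨mem_univ _, hW⟩, fun k hk' => hk ⟨k, (mem_filter.1 hk').2⟩⟩
      · intro k l h3 h4 h5 h6
        exact hc1 ⟨k, l, h3, h4, h5, h6⟩
  have hsub : pr (fun ω : Sym2 (Fin n) → Bool => ¬ Sys n r m (n / (1000 * κ)) ω) ≤
      pr (fun ω : Sym2 (Fin n) → Bool => ¬ Typ δ τ ω ∨ (Typ δ τ ω ∧ ¬ Sys n r m (n / (1000 * κ)) ω)) := by
    refine pr_mono (fun ω hω => ?_)
    by_cases h : Typ δ τ ω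
    · exact Or.inr ⟨h, hω⟩
    · exact Or.inl h
  refine hsub.trans ((pr_or _ _).trans ?_)
  have : 2 * (1 / (n : ℝ) ^ 2) = 2 / (n : ℝ) ^ 2 := by ring
  rw [← this]
  exact add_le_add hT hfub

/-- from a system of blocks to a positive semidefinite matrix of small rank -/
theorem pr_of_sys {n κ m : ℕ} (hκ : 1 ≤ κ) (hm : 1 ≤ m) (ω : Sym2 (Fin n) → Bool)
    (h : Sys n (1000 * κ * m) m (n / (1000 * κ)) ω) :
    ∃ d, MrGC.PR (gr ω) d ∧ (d : ℝ) ≤ (1 / 3 + 1 / (600 * κ)) * n := by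
  obtain ⟨r, hr⟩ : ∃ r, r = 1000 * κ * m := ⟨_, rfl⟩
  rw [← hr] at h
  obtain ⟨K, P, h1, h2, h3, h4⟩ := h
  have hr1 : 1 ≤ r := by
    have : 1 * 1 * 1 ≤ 1000 * κ * m := Nat.mul_le_mul (Nat.mul_le_mul (by norm_num) hκ) hm
    rw [hr]
    simpa using this
  refine ⟨_, det hr1 hm ω K P h1 h2 h3, ?_⟩
  have hK : K * (3 * r) ≤ n := by
    have hinj : Function.Injective (fun x : Fin K × I r => P x.1 x.2) := by
      rintro ⟨k, a⟩ ⟨l, b⟩ hab
      simp only at hab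
      by_cases hkl : k = l
      · subst hkl
        by_cases hab' : a = b
        · rw [hab']
        · exact absurd hab ((h1 k).2 a b hab').1
      · exact absurd hab (h2 k l hkl a b)
    have := Fintype.card_le_of_injective _ hinj
    rw [Fintype.card_prod, Fintype.card_prod, Fintype.card_fin, Fintype.card_fin, Fintype.card_fin,
      Fintype.card_fin, mul_comm r 3] at this
    exact this
  have hκ' : (1 : ℝ) ≤ κ := by exact_mod_cast hκ
  have hm' : (1 : ℝ) ≤ m := by exact_mod_cast hm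
  have h5 : ((n - K * (3 * r) : ℕ) : ℝ) ≤ n / (1000 * κ) := by
    have h6 : n - K * (3 * r) ≤ n / (1000 * κ) := by omega
    calc ((n - K * (3 * r) : ℕ) : ℝ) ≤ ((n / (1000 * κ) : ℕ) : ℝ) := by exact_mod_cast h6
      _ ≤ (n : ℝ) / ((1000 * κ : ℕ) : ℝ) := Nat.cast_div_le
      _ = n / (1000 * κ) := by push_cast; ring
  have hKr : (K : ℝ) * (3 * r) ≤ n := by exact_mod_cast hK
  have hrm : (r : ℝ) = 1000 * κ * m := by rw [hr]; push_cast; ring
  push_cast
  have h7 : (K : ℝ) * (r + 2 * m) = (K : ℝ) * (3 * r) * (1 / 3 + 2 / (3000 * κ)) := by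
    rw [hrm]; field_simp; ring
  rw [h7]
  calc (K : ℝ) * (3 * r) * (1 / 3 + 2 / (3000 * κ)) + ((n - K * (3 * r) : ℕ) : ℝ)
      ≤ n * (1 / 3 + 2 / (3000 * κ)) + n / (1000 * κ) := by
        gcongr
    _ = (1 / 3 + 1 / (600 * κ)) * n := by field_simp; ring

open Classical in
/-- almost all graphs have a positive semidefinite matrix of rank at most `(1/3 + ε) n` -/
theorem final (ε : ℝ) (hε : 0 < ε) : Tendsto (fun n : ℕ =>
    (Fintype.card {G : SimpleGraph (Fin n) // ∃ d, MrGC.PR G d ∧ (d : ℝ) ≤ (1 / 3 + ε) * n} : ℝ) /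
      (Fintype.card (SimpleGraph (Fin n)) : ℝ)) atTop (𝓝 1) := by
  obtain ⟨k0, hk0⟩ := exists_nat_gt (1 / ε)
  obtain ⟨κ, hκdef⟩ : ∃ κ, κ = k0 + 1 := ⟨_, rfl⟩
  have hκ : 1 ≤ κ := by omega
  have hκε : 1 / (600 * (κ : ℝ)) ≤ ε := by
    have h1 : (k0 : ℝ) + 1 = κ := by rw [hκdef]; push_cast; ring
    have h2 : 1 / ε < κ := by linarith
    rw [div_lt_iff₀ hε] at h2
    have h3 : (0 : ℝ) < κ := by
      have : 0 < 1 / ε := by positivity
      linarith
    rw [div_le_iff₀ (by positivity)]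
    nlinarith
  obtain ⟨m0, h0⟩ := sys_pr κ hκ
  have key : ∀ᶠ n : ℕ in atTop, (1 : ℝ) - ((3 / 5) ^ n + 2 / (n : ℝ) ^ 2) ≤
      (Fintype.card {G : SimpleGraph (Fin n) // ∃ d, MrGC.PR G d ∧ (d : ℝ) ≤ (1 / 3 + ε) * n} : ℝ) /
      (Fintype.card (SimpleGraph (Fin n)) : ℝ) := by
    filter_upwards [eventually_ge_atTop (2 ^ (κ * (m0 + 1) ^ 2)), eventually_ge_atTop 1] with n hn hn1
    obtain ⟨m, hm⟩ : ∃ m, m = Nat.sqrt (Nat.log 2 n / κ) := ⟨_, rfl⟩
    have h1 : m ^ 2 ≤ Nat.log 2 n / κ := by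
      rw [hm, pow_two]; exact Nat.sqrt_le _
    have h2 : Nat.log 2 n / κ < (m + 1) ^ 2 := by
      rw [hm, pow_two]; exact Nat.lt_succ_sqrt _
    have h3 : κ * m ^ 2 ≤ Nat.log 2 n := by
      calc κ * m ^ 2 ≤ κ * (Nat.log 2 n / κ) := by gcongr
        _ ≤ Nat.log 2 n := Nat.mul_div_le _ _
    have h4 : Nat.log 2 n < κ * (m + 1) ^ 2 := by
      rw [Nat.div_lt_iff_lt_mul (by omega)] at h2
      linarith
    have h5 : 2 ^ (κ * m ^ 2) ≤ n :=
      le_trans (Nat.pow_le_pow_right (by norm_num) h3) (Nat.pow_log_le_self 2 (by omega))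
    have h6 : n < 2 ^ (κ * (m + 1) ^ 2) := Nat.lt_pow_of_log_lt (by norm_num) h4
    have h7 : m0 + 1 ≤ m := by
      rw [hm, Nat.le_sqrt, ← pow_two, Nat.le_div_iff_mul_le (by omega), mul_comm]
      exact (Nat.le_log_iff_pow_le (by norm_num) (by omega)).2 hn
    have h8 := h0 m (by omega) n h5 h6
    have h10 : pr (fun ω : Sym2 (Fin n) → Bool => ¬ ∃ d, MrGC.PR (gr ω) d ∧ (d : ℝ) ≤ (1 / 3 + ε) * n) ≤
        (3 / 5) ^ n + 2 / (n : ℝ) ^ 2 := by
      refine (pr_mono (fun ω hω hs => ?_)).trans h8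
      obtain ⟨d, hd1, hd2⟩ := pr_of_sys hκ (by omega) ω hs
      refine hω ⟨d, hd1, hd2.trans ?_⟩
      gcongr
    rw [pr_not, transfer (fun G => ∃ d, MrGC.PR G d ∧ (d : ℝ) ≤ (1 / 3 + ε) * n)] at h10
    linarith
  have hlim : Tendsto (fun n : ℕ => (1 : ℝ) - ((3 / 5) ^ n + 2 / (n : ℝ) ^ 2)) atTop (𝓝 1) := by
    have h1 : Tendsto (fun n : ℕ => ((3 : ℝ) / 5) ^ n) atTop (𝓝 0) :=
      tendsto_pow_atTop_nhds_zero_of_lt_one (by norm_num) (by norm_num)
    have h2 : Tendsto (fun n : ℕ => (2 : ℝ) / (n : ℝ) ^ 2) atTop (𝓝 0) := by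
      refine tendsto_const_nhds.div_atTop ?_
      exact (tendsto_pow_atTop (by norm_num)).comp tendsto_natCast_atTop_atTop
    simpa using (h1.add h2).const_sub 1
  refine tendsto_of_tendsto_of_tendsto_of_le_of_le' hlim tendsto_const_nhds key ?_
  filter_upwards with n
  refine div_le_one_of_le₀ ?_ (by positivity)
  exact_mod_cast Fintype.card_subtype_le _

end GCB
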