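import Pool.Agent.GCB.PExp

/-!
# GCB-P-T2: the second way for a triple to be bad

`pr_exp` with `J = I r` (`Fintype.card (I r) = r * 3`), `E₀ = Fin 3`, `g h = if h i = true ∧ h j = true then 1 else 0`, `s = r`,
`lam = 3/2` (`Finset.card_filter`: the card of the filter is the sum of the indicator).  For `i < j` in `Fin 3` the sum over
the eight `h : Fin 3 → Bool` is `6 + 2 lam = 9` (the fibre over `1` has two elements: `fin_cases i`, `fin_cases j`, `decide`).
So `pr * (3/2) ^ r ≤ ((9/8) ^ 3) ^ r` and `(9/8) ^ 3 ≤ (3/2) * (199/200)` (`norm_num`).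
-/

open Finset

namespace GCB

open GCA

theorem pr_t2 (r : ℕ) (i j : Fin 3) (hij : i < j) :
    pr (fun f : I r × Fin 3 → Bool => r < (univ.filter (fun u => f (u, i) = true ∧ f (u, j) = true)).card) ≤
      (199 / 200) ^ r := by
  have h1 := pr_exp (J := I r) (E₀ := Fin 3) (fun h => if h i = true ∧ h j = true then 1 else 0) r
    (lam := 3 / 2) (by norm_num)
  have h2 : ∀ i j : Fin 3, i < j →
      (univ.filter (fun h : Fin 3 → Bool => h i = true ∧ h j = true)).card = 2 := by decide
  have h3 : ∑ h : Fin 3 → Bool, (3 / 2 : ℝ) ^ (if h i = true ∧ h j = true then 1 else 0) = 9 := by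
    have h4 : ∀ h : Fin 3 → Bool, (3 / 2 : ℝ) ^ (if h i = true ∧ h j = true then 1 else 0) =
        1 + (if h i = true ∧ h j = true then 1 else 0) * (1 / 2) := by
      intro h
      split_ifs <;> norm_num
    rw [sum_congr rfl (fun h _ => h4 h), sum_add_distrib, ← sum_mul, ← natCast_card_filter, h2 i j hij]
    norm_num
  rw [h3] at h1
  have h5 : ∀ f : I r × Fin 3 → Bool, (univ.filter (fun u => f (u, i) = true ∧ f (u, j) = true)).card =
      ∑ u, (if f (u, i) = true ∧ f (u, j) = true then 1 else 0) := by
    intro f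
    rw [card_filter]
  simp only [h5]
  rw [← le_div_iff₀ (by positivity)] at h1
  refine h1.trans ?_
  rw [div_le_iff₀ (by positivity), Fintype.card_prod, Fintype.card_fin, Fintype.card_fin,
    mul_comm r 3, pow_mul, ← mul_pow]
  gcongr
  norm_num

end GCB
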