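import Pool.Agent.GCB.PT1
import Pool.Agent.GCB.PT2

/-!
# GCB-P-BadT: a triple is bad with exponentially small probability

Union bound (`pr_mono`, `pr_or`, `pr_exists` over the three pairs `(0,1), (0,2), (1,2)`): `pr_t1` and three times `pr_t2`.
-/

open Finset

namespace GCB

open GCA

theorem pr_badT (r : ℕ) :
    pr (fun f : I r × Fin 3 → Bool => BadT r (fun u i => f (u, i))) ≤ 4 * (199 / 200) ^ r := by
  have h1 : pr (fun f : I r × Fin 3 → Bool => BadT r (fun u i => f (u, i))) ≤
      pr (fun f : I r × Fin 3 → Bool =>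
        (2 * r < ∑ u, ((univ.filter (fun i => f (u, i) = true)).card - 1)) ∨
        ∃ e ∈ (univ.filter (fun e : Fin 3 × Fin 3 => e.1 < e.2)),
          r < (univ.filter (fun u => f (u, e.1) = true ∧ f (u, e.2) = true)).card) := by
    refine pr_mono (fun f hf => ?_)
    rcases hf with h | ⟨i, j, hij, h⟩
    · exact Or.inl h
    · exact Or.inr ⟨(i, j), mem_filter.2 ⟨mem_univ _, hij⟩, h⟩
  refine h1.trans ((pr_or _ _).trans ?_)
  have h2 := pr_t1 r
  have h3 : pr (fun f : I r × Fin 3 → Bool => ∃ e ∈ (univ.filter (fun e : Fin 3 × Fin 3 => e.1 < e.2)),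
      r < (univ.filter (fun u => f (u, e.1) = true ∧ f (u, e.2) = true)).card) ≤ 3 * (199 / 200) ^ r := by
    refine (pr_exists _ _).trans ?_
    refine (sum_le_sum (fun e he => pr_t2 r e.1 e.2 (mem_filter.1 he).2)).trans ?_
    rw [sum_const, nsmul_eq_mul]
    have h4 : (univ.filter (fun e : Fin 3 × Fin 3 => e.1 < e.2)).card = 3 := by decide
    rw [h4]
    norm_num
  linarith

end GCB
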