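import Pool.Agent.GCA.PrA
import Pool.Agent.GCB.Defs

/-!
# GCB-P-Many: many independent events

For `S ⊆ univ : Finset J` the number of `f : J × E₀ → Bool` with `B (f (t, ·))` for all `t ∈ S` is
`(card B) ^ card S * (2 ^ card E₀) ^ (card J - card S)`: transfer along `Equiv.curry` to `J → (E₀ → Bool)` and use
`Fintype.card_piFinset` / `Finset.prod_ite` for `Fintype.piFinset (fun t => if t ∈ S then univ.filter B else univ)`.  So
`pr (∀ t ∈ S, B (f (t, ·))) = (pr B) ^ card S ≤ β ^ card S`.  The event `m < #{t | B ..}` implies that there is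
`S ∈ powersetCard (m + 1) univ` with `∀ t ∈ S, B ..` (`Finset.exists_subset_card_eq`); union bound `pr_exists`, and
`card (powersetCard (m + 1) univ) = (card J).choose (m + 1) ≤ 2 ^ card J` (`Nat.choose_le_two_pow`).
-/

open Finset

namespace GCB

open GCA

private theorem pr_many_aux {J E₀ : Type*} [Fintype J] [DecidableEq J] [Fintype E₀]
    [DecidableEq E₀] (B : (E₀ → Bool) → Prop) (S : Finset J) :
    pr (fun f : J × E₀ → Bool => ∀ t ∈ S, B (fun e => f (t, e))) = (pr B) ^ S.card := by
  classical
  unfold pr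
  have h1 : (univ.filter (fun f : J × E₀ → Bool => ∀ t ∈ S, B (fun e => f (t, e)))).card =
      (Fintype.piFinset (fun t : J => if t ∈ S then univ.filter B else univ)).card := by
    refine Finset.card_bij (fun f _ t e => f (t, e)) ?_ ?_ ?_
    · intro f hf
      rw [mem_filter] at hf
      rw [Fintype.mem_piFinset]
      intro t
      by_cases ht : t ∈ S
      · rw [if_pos ht, mem_filter]
        exact ⟨mem_univ _, hf.2 t ht⟩
      · rw [if_neg ht]
        exact mem_univ _
    · intro f _ g _ hfg
      funext x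
      exact congrFun (congrFun hfg x.1) x.2
    · intro g hg
      rw [Fintype.mem_piFinset] at hg
      refine ⟨fun x => g x.1 x.2, ?_, rfl⟩
      rw [mem_filter]
      refine ⟨mem_univ _, fun t ht => ?_⟩
      have h := hg t
      rw [if_pos ht, mem_filter] at h
      exact h.2
  have h2 : (Fintype.piFinset (fun t : J => if t ∈ S then univ.filter B else univ)).card =
      ∏ t : J, if t ∈ S then (univ.filter B).card else 2 ^ Fintype.card E₀ := by
    rw [Fintype.card_piFinset]
    refine prod_congr rfl fun t _ => ?_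
    by_cases ht : t ∈ S
    · rw [if_pos ht, if_pos ht]
    · rw [if_neg ht, if_neg ht, card_univ, Fintype.card_fun, Fintype.card_bool]
  have h3 : ((univ.filter (fun f : J × E₀ → Bool => ∀ t ∈ S, B (fun e => f (t, e)))).card : ℝ) =
      ∏ t : J, if t ∈ S then ((univ.filter B).card : ℝ) else 2 ^ Fintype.card E₀ := by
    rw [h1, h2]
    push_cast
    rfl
  have h4 : (2 : ℝ) ^ Fintype.card (J × E₀) = ∏ _t : J, (2 : ℝ) ^ Fintype.card E₀ := by
    rw [prod_const, card_univ, Fintype.card_prod, ← pow_mul, mul_comm]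
  have h5 : (∏ t : J, if t ∈ S then ((univ.filter B).card : ℝ) else 2 ^ Fintype.card E₀) /
      (∏ _t : J, (2 : ℝ) ^ Fintype.card E₀) =
      (((univ.filter B).card : ℝ) / 2 ^ Fintype.card E₀) ^ S.card := by
    rw [← prod_div_distrib]
    have h6 : ∀ t : J, (if t ∈ S then ((univ.filter B).card : ℝ) else 2 ^ Fintype.card E₀) /
        2 ^ Fintype.card E₀ =
        if t ∈ S then ((univ.filter B).card : ℝ) / 2 ^ Fintype.card E₀ else 1 := by
      intro t
      by_cases ht : t ∈ S
      · rw [if_pos ht, if_pos ht]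
      · rw [if_neg ht, if_neg ht]
        exact div_self (by positivity)
    rw [prod_congr rfl fun t _ => h6 t, prod_ite_mem, univ_inter, prod_const]
  calc _ = (∏ t : J, if t ∈ S then ((univ.filter B).card : ℝ) else 2 ^ Fintype.card E₀) /
      (∏ _t : J, (2 : ℝ) ^ Fintype.card E₀) := by
        rw [← h4, ← h3]
        refine congrArg (fun x : ℕ => (x : ℝ) / 2 ^ Fintype.card (J × E₀)) ?_
        exact congrArg Finset.card (Finset.filter_congr_decidable _ _ _)
    _ = _ := by
        rw [h5]

open Classical in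
theorem pr_many {J E₀ : Type*} [Fintype J] [DecidableEq J] [Fintype E₀] [DecidableEq E₀]
    (B : (E₀ → Bool) → Prop) (m : ℕ) {β : ℝ} (hβ : pr B ≤ β) :
    pr (fun f : J × E₀ → Bool => m < (univ.filter (fun t : J => B (fun e => f (t, e)))).card) ≤
      2 ^ Fintype.card J * β ^ (m + 1) := by
  have h0 : 0 ≤ pr B := pr_nonneg B
  have hβ0 : 0 ≤ β := h0.trans hβ
  calc pr (fun f : J × E₀ → Bool => m < (univ.filter (fun t : J => B (fun e => f (t, e)))).card)
      ≤ pr (fun f : J × E₀ → Bool => ∃ S ∈ powersetCard (m + 1) (univ : Finset J),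
          ∀ t ∈ S, B (fun e => f (t, e))) := by
        apply pr_mono
        intro f hf
        obtain ⟨S, hS, hSc⟩ := Finset.exists_subset_card_eq (Nat.succ_le_of_lt hf)
        refine ⟨S, mem_powersetCard.2 ⟨subset_univ _, hSc⟩, fun t ht => ?_⟩
        exact (mem_filter.1 (hS ht)).2
    _ ≤ ∑ S ∈ powersetCard (m + 1) (univ : Finset J),
          pr (fun f : J × E₀ → Bool => ∀ t ∈ S, B (fun e => f (t, e))) := pr_exists _ _
    _ ≤ ∑ _S ∈ powersetCard (m + 1) (univ : Finset J), β ^ (m + 1) := by
        refine sum_le_sum fun S hS => ?_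
        rw [pr_many_aux, (mem_powersetCard.1 hS).2]
        exact pow_le_pow_left₀ h0 hβ _
    _ = ((Fintype.card J).choose (m + 1) : ℝ) * β ^ (m + 1) := by
        rw [sum_const, card_powersetCard, card_univ, nsmul_eq_mul]
    _ ≤ 2 ^ Fintype.card J * β ^ (m + 1) := by
        refine mul_le_mul_of_nonneg_right ?_ (pow_nonneg hβ0 _)
        exact_mod_cast Nat.choose_le_two_pow _ _

end GCB
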