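import Pool.Agent.GCA.PrB
import Pool.Agent.GCB.PMany
import Pool.Agent.GCB.PBadT

/-!
# GCB-P-BadPB: a pair of blocks is bad with small probability, in terms of its bits

`pr_many` with `J = Fin r`, `E₀ = I r × Fin 3`, `B f = BadT r (fun u i => f (u, i))`, `β = 4 (199/200) ^ r` (`pr_badT`),
transferred by `pr_inj` along the injection `Fin r × (I r × Fin 3) → I r × I r`, `(t, (u, i)) ↦ (u, (t, i))`.
-/

open Finset

namespace GCB

open GCA

open Classical in
theorem pr_badPB (r m : ℕ) :
    pr (fun f : I r × I r → Bool =>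
      m < (univ.filter (fun t : Fin r => BadT r (fun (u : I r) (i : Fin 3) => f (u, (t, i))))).card) ≤
      2 ^ r * (4 * (199 / 200) ^ r) ^ (m + 1) := by
  have h1 := pr_many (J := Fin r) (E₀ := I r × Fin 3) (fun f => BadT r (fun u i => f (u, i))) m (pr_badT r)
  rw [Fintype.card_fin] at h1
  refine le_trans (le_of_eq ?_) h1
  have hφ : Function.Injective (fun x : Fin r × (I r × Fin 3) => ((x.2.1, (x.1, x.2.2)) : I r × I r)) := by
    rintro ⟨t, u, i⟩ ⟨t', u', i'⟩ h
    simp only [Prod.mk.injEq] at h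
    obtain ⟨h1, h2, h3⟩ := h
    rw [h1, h2, h3]
  exact pr_inj (fun x : Fin r × (I r × Fin 3) => ((x.2.1, (x.1, x.2.2)) : I r × I r)) hφ
    (fun f : Fin r × (I r × Fin 3) → Bool =>
      m < (univ.filter (fun t : Fin r => BadT r (fun (u : I r) (i : Fin 3) => f (t, (u, i))))).card)

end GCB
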