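import Pool.Agent.GCB.PDeg

open Finset

namespace GCB

open GCA

open Classical in
theorem cnt {n : ℕ} (ω : Sym2 (Fin n) → Bool) {θ τ : ℝ} (hθ : 0 < θ) (hθ' : θ ≤ 1) (h : DegP θ τ ω) (k : ℕ)
    (W : Finset (Fin n)) (hW : τ ≤ θ ^ k * W.card) :
    ((W.card : ℝ) / 2) ^ k * θ ^ (k.choose 2) ≤
      ((univ.filter (fun p : Fin k → Fin n => IT ω W p)).card : ℝ) := by
  induction k generalizing W with
  | zero =>
    have h1 : (univ.filter (fun p : Fin 0 → Fin n => IT ω W p)) = univ := by
      apply filter_true_of_mem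
      intro p _
      exact ⟨fun a => a.elim0, fun a => a.elim0⟩
    rw [h1]
    simp
  | succ k ih =>
    have hWk : τ ≤ (W.card : ℝ) := by
      refine hW.trans ?_
      calc θ ^ (k + 1) * (W.card : ℝ) ≤ 1 * W.card := by
            apply mul_le_mul_of_nonneg_right (pow_le_one₀ hθ.le hθ') (by positivity)
        _ = W.card := one_mul _
    have hd := h W hWk
    set V : Fin n → Finset (Fin n) := fun v => W.filter (fun w => v ≠ w ∧ ω s(v, w) = false) with hV
    set D : Finset (Fin n) := W.filter (fun v => θ * (W.card : ℝ) ≤ ((V v).card : ℝ)) with hD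
    have hd' : (W.card : ℝ) ≤ 2 * (D.card : ℝ) := hd
    have hcard : ∀ v ∈ D, ((W.card : ℝ) / 2) ^ k * θ ^ (k + k.choose 2) ≤
        ((univ.filter (fun p : Fin k → Fin n => IT ω (V v) p)).card : ℝ) := by
      intro v hv
      have hv2 : θ * (W.card : ℝ) ≤ ((V v).card : ℝ) := (mem_filter.1 hv).2
      have h1 : τ ≤ θ ^ k * ((V v).card : ℝ) := by
        refine hW.trans ?_
        rw [pow_succ, mul_assoc]
        exact mul_le_mul_of_nonneg_left hv2 (by positivity)
      refine le_trans ?_ (ih (V v) h1)
      calc ((W.card : ℝ) / 2) ^ k * θ ^ (k + k.choose 2) = (θ * W.card / 2) ^ k * θ ^ (k.choose 2) := by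
            rw [pow_add, mul_div_assoc, mul_pow]
            ring
        _ ≤ (((V v).card : ℝ) / 2) ^ k * θ ^ (k.choose 2) := by gcongr
    have hsum : ∑ v ∈ D, (univ.filter (fun p : Fin k → Fin n => IT ω (V v) p)).card ≤
        (univ.filter (fun p : Fin (k + 1) → Fin n => IT ω W p)).card := by
      rw [← card_sigma]
      refine card_le_card_of_injOn (fun x => Fin.cons x.1 x.2) ?_ ?_
      · intro x hx
        have hx1 := (mem_sigma.1 hx).1
        have hx2 := (mem_filter.1 (mem_sigma.1 hx).2).2
        have hvW : x.1 ∈ W := (mem_filter.1 hx1).1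
        refine mem_filter.2 ⟨mem_univ _, ?_⟩
        show IT ω W (Fin.cons x.1 x.2 : Fin (k + 1) → Fin n)
        refine ⟨?_, ?_⟩
        · intro a
          refine Fin.cases ?_ (fun a => ?_) a
          · rw [Fin.cons_zero]; exact hvW
          · rw [Fin.cons_succ]; exact (mem_filter.1 (hx2.1 a)).1
        · intro a b
          refine Fin.cases ?_ (fun a => ?_) a
          · refine Fin.cases ?_ (fun b => ?_) b
            · intro h0; exact absurd rfl h0
            · intro _
              rw [Fin.cons_zero, Fin.cons_succ]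
              exact (mem_filter.1 (hx2.1 b)).2
          · refine Fin.cases ?_ (fun b => ?_) b
            · intro _
              rw [Fin.cons_zero, Fin.cons_succ]
              have h3 := (mem_filter.1 (hx2.1 a)).2
              exact ⟨h3.1.symm, by rw [Sym2.eq_swap]; exact h3.2⟩
            · intro hab
              rw [Fin.cons_succ, Fin.cons_succ]
              exact hx2.2 a b (fun h4 => hab (by rw [h4]))
      · rintro ⟨v, p⟩ _ ⟨v', p'⟩ _ hxy
        have h5 := Fin.cons_injective2 hxy
        have h6 : v = v' := h5.1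
        have h7 : p = p' := h5.2
        rw [h6, h7]
    have hsum' : ∑ v ∈ D, ((univ.filter (fun p : Fin k → Fin n => IT ω (V v) p)).card : ℝ) ≤
        ((univ.filter (fun p : Fin (k + 1) → Fin n => IT ω W p)).card : ℝ) := by exact_mod_cast hsum
    refine le_trans ?_ hsum'
    refine le_trans ?_ (sum_le_sum hcard)
    rw [sum_const, nsmul_eq_mul, Nat.choose_succ_succ, Nat.choose_one_right, pow_succ]
    have h6 : (0 : ℝ) ≤ ((W.card : ℝ) / 2) ^ k * θ ^ (k + k.choose 2) := by positivity
    calc ((W.card : ℝ) / 2) ^ k * (W.card / 2) * θ ^ (k + k.choose 2)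
        = (W.card / 2) * (((W.card : ℝ) / 2) ^ k * θ ^ (k + k.choose 2)) := by ring
      _ ≤ D.card * (((W.card : ℝ) / 2) ^ k * θ ^ (k + k.choose 2)) := by
          apply mul_le_mul_of_nonneg_right _ h6
          linarith

end GCB
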