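import Pool.Agent.GCB.PTyp

/-!
# GCB-P-Deg: most vertices of a large set have many non-neighbours in it

Let `2 τ / δ ≤ card W` and let `B` be the set of the `v ∈ W` with fewer than `(1/2 - 2 δ) card W` non-neighbours in `W`, and
assume `card W < 2 card B`.  Let `s = ⌈τ⌉₊`, so `τ ≤ s ≤ τ + 1 ≤ 2 τ ≤ δ card W ≤ card W / 4 ≤ card B`.  Choose `S ⊆ B` with
`s` elements (`Finset.exists_subset_card_eq`), `T = W \ S`, `card T = card W - s ≥ τ`.  `Typ`:
`(1/2 - δ) s (card W - s) ≤ #nonedges(S, T) ≤ ∑ v ∈ S, #{w ∈ W | v ≠ w, ω s(v, w) = false} ≤ s (1/2 - 2 δ) card W`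
(for example `card_le_card` with the disjoint union, `Finset.card_filter_product`/`Finset.card_eq_sum_card_fiberwise`, or
`Finset.card_sigma`).  `s > 0`, so `(1/2 - δ) (card W - s) ≤ (1/2 - 2 δ) card W`, that is `δ card W ≤ (1/2 - δ) s ≤ s / 2
≤ δ card W / 2`, a contradiction to `0 < τ ≤ card W`.
-/

open Finset

namespace GCB

open GCA

/-- in every large set `W` at least half of the vertices have at least `θ card W` non-neighbours in `W` -/
def DegP {n : ℕ} (θ τ : ℝ) (ω : Sym2 (Fin n) → Bool) : Prop :=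
  ∀ W : Finset (Fin n), τ ≤ W.card →
    (W.card : ℝ) ≤ 2 * ((W.filter (fun v =>
      θ * (W.card : ℝ) ≤ ((W.filter (fun w => v ≠ w ∧ ω s(v, w) = false)).card : ℝ))).card : ℝ)

theorem degP_of_typ {n : ℕ} {δ τ : ℝ} (hδ : 0 < δ) (hδ' : δ ≤ 1 / 4) (hτ : 1 ≤ τ) (ω : Sym2 (Fin n) → Bool)
    (h : Typ δ τ ω) : DegP (1 / 2 - 2 * δ) (2 * τ / δ) ω := by
  intro W hW
  by_contra hcon
  push Not at hcon
  have hWδ : 2 * τ ≤ δ * W.card := by
    rw [div_le_iff₀ hδ] at hW
    linarith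
  set P : Fin n → Prop := fun v => (1 / 2 - 2 * δ) * (W.card : ℝ) ≤
    ((W.filter (fun w => v ≠ w ∧ ω s(v, w) = false)).card : ℝ) with hP
  have hsum : (W.filter P).card + (W.filter fun v => ¬ P v).card = W.card :=
    Finset.card_filter_add_card_filter_not _
  have hsumR : ((W.filter P).card : ℝ) + ((W.filter fun v => ¬ P v).card : ℝ) = W.card := by
    exact_mod_cast hsum
  set B := W.filter fun v => ¬ P v with hB
  have hcon' : 2 * ((W.filter P).card : ℝ) < W.card := hcon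
  have hBW : (W.card : ℝ) < 2 * B.card := by linarith
  have hs1 : τ ≤ (⌈τ⌉₊ : ℝ) := Nat.le_ceil τ
  have hs2 : (⌈τ⌉₊ : ℝ) < τ + 1 := Nat.ceil_lt_add_one (by linarith)
  set s := ⌈τ⌉₊ with hs
  have hW4 : δ * (W.card : ℝ) ≤ W.card / 4 := by
    have := mul_le_mul_of_nonneg_right hδ' (Nat.cast_nonneg (α := ℝ) W.card)
    linarith
  have hsB : s ≤ B.card := by
    have : (s : ℝ) ≤ B.card := by linarith
    exact_mod_cast this
  obtain ⟨S, hSB, hScard⟩ := Finset.exists_subset_card_eq hsB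
  have hSW : S ⊆ W := hSB.trans (Finset.filter_subset _ _)
  have hTcard : (W \ S).card + s = W.card := by
    rw [← hScard]
    exact Finset.card_sdiff_add_card_eq_card hSW
  have hTR : ((W \ S).card : ℝ) = W.card - s := by
    have : ((W \ S).card : ℝ) + s = W.card := by exact_mod_cast hTcard
    linarith
  have h1 := h S (W \ S) Finset.disjoint_sdiff (by rw [hScard]; exact hs1) (by
    rw [hTR]
    linarith)
  have h2 : ((S ×ˢ (W \ S)).filter (fun e => ω s(e.1, e.2) = false)).card ≤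
      ∑ v ∈ S, (W.filter (fun w => v ≠ w ∧ ω s(v, w) = false)).card := by
    rw [Finset.card_filter, Finset.sum_product]
    apply Finset.sum_le_sum
    intro v hv
    rw [← Finset.card_filter]
    apply Finset.card_le_card
    intro w hw
    obtain ⟨hw1, hw2⟩ := Finset.mem_filter.1 hw
    obtain ⟨hw3, hw4⟩ := Finset.mem_sdiff.1 hw1
    exact Finset.mem_filter.2 ⟨hw3, fun h3 => hw4 (h3 ▸ hv), hw2⟩
  have h3 : ((∑ v ∈ S, (W.filter (fun w => v ≠ w ∧ ω s(v, w) = false)).card : ℕ) : ℝ) ≤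
      ∑ _v ∈ S, (1 / 2 - 2 * δ) * (W.card : ℝ) := by
    rw [Nat.cast_sum]
    apply Finset.sum_le_sum
    intro v hv
    have h4 := (Finset.mem_filter.1 (hSB hv)).2
    exact (not_le.1 h4).le
  rw [Finset.sum_const, hScard, nsmul_eq_mul] at h3
  have h2' : (((S ×ˢ (W \ S)).filter (fun e => ω s(e.1, e.2) = false)).card : ℝ) ≤
      ((∑ v ∈ S, (W.filter (fun w => v ≠ w ∧ ω s(v, w) = false)).card : ℕ) : ℝ) := by
    exact_mod_cast h2
  have h4 := h1.trans (h2'.trans h3)
  rw [hScard, hTR] at h4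
  have hspos : (0 : ℝ) < s := by linarith
  have h5 : (1 / 2 - δ) * ((W.card : ℝ) - s) ≤ (1 / 2 - 2 * δ) * W.card := by
    have h6 : (s : ℝ) * ((1 / 2 - δ) * ((W.card : ℝ) - s)) ≤
        s * ((1 / 2 - 2 * δ) * W.card) := by linarith
    exact le_of_mul_le_mul_left h6 hspos
  have h7 : δ * (s : ℝ) ≥ 0 := by positivity
  nlinarith

end GCB
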