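import Mathlib

/-!
# GCB-P-Dl: the density defect
-/

namespace GCB

/-- the density defect -/
noncomputable def dl (κ : ℕ) : ℝ := 1 / (10 ^ 8 * κ)

end GCB
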