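import Pool.Agent.GCA.PrA
import Pool.Agent.GCB.Defs

/-!
# GCB-P-Exp: exponential moments for independent rows

`∑ f : J × E₀ → Bool, ∏ u, lam ^ g (f (u, ·)) = (∑ h : E₀ → Bool, lam ^ g h) ^ card J`: transfer along `Equiv.curry`
(`Equiv.sum_comp`), then `Finset.prod_univ_sum` read from right to left (`Fintype.piFinset_univ`, `Finset.prod_const`).
`∏ u, lam ^ g _ = lam ^ (∑ u, g _)` (`Finset.prod_pow_eq_pow_sum`); on the event it is at least `lam ^ s`
(`pow_le_pow_right₀`), elsewhere nonnegative: `card event * lam ^ s ≤ (∑ h, ..) ^ card J`.  Divide by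
`2 ^ card (J × E₀) = (2 ^ card E₀) ^ card J`.
-/

open Finset

namespace GCB

open GCA

theorem pr_exp {J E₀ : Type*} [Fintype J] [DecidableEq J] [Fintype E₀] [DecidableEq E₀]
    (g : (E₀ → Bool) → ℕ) (s : ℕ) {lam : ℝ} (hlam : 1 ≤ lam) :
    pr (fun f : J × E₀ → Bool => s < ∑ u, g (fun e => f (u, e))) * lam ^ s ≤
      ((∑ h : E₀ → Bool, lam ^ g h) / 2 ^ Fintype.card E₀) ^ Fintype.card J := by
  classical
  have h1 : ∑ f : J × E₀ → Bool, ∏ u, lam ^ g (fun e => f (u, e)) =
      (∑ h : E₀ → Bool, lam ^ g h) ^ Fintype.card J := by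
    have h2 : ∑ f : J × E₀ → Bool, ∏ u, lam ^ g (fun e => f (u, e)) =
        ∑ F : J → (E₀ → Bool), ∏ u, lam ^ g (F u) :=
      Fintype.sum_equiv (Equiv.curry J E₀ Bool) _ _ (fun f => rfl)
    have h3 := Finset.prod_univ_sum (fun _ : J => (univ : Finset (E₀ → Bool))) (fun _ h => lam ^ g h)
    rw [Fintype.piFinset_univ] at h3
    rw [h2, ← h3, prod_const, card_univ]
  have h0 : (0 : ℝ) < lam := by linarith
  have h2 : (((univ : Finset (J × E₀ → Bool)).filter (fun f => s < ∑ u, g (fun e => f (u, e)))).card : ℝ) *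
      lam ^ s ≤ (∑ h : E₀ → Bool, lam ^ g h) ^ Fintype.card J := by
    rw [← h1, ← nsmul_eq_mul, ← sum_const]
    refine le_trans (sum_le_sum (fun f hf => ?_)) (sum_le_sum_of_subset_of_nonneg (filter_subset _ _)
      (fun f _ _ => prod_nonneg (fun u _ => by positivity)))
    rw [prod_pow_eq_pow_sum]
    exact pow_le_pow_right₀ hlam (mem_filter.1 hf).2.le
  have h3 : pr (fun f : J × E₀ → Bool => s < ∑ u, g (fun e => f (u, e))) =
      (((univ : Finset (J × E₀ → Bool)).filter (fun f => s < ∑ u, g (fun e => f (u, e)))).card : ℝ) /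
        2 ^ Fintype.card (J × E₀) := by
    unfold pr
    congr
  rw [h3, div_pow, ← pow_mul, Fintype.card_prod, mul_comm (Fintype.card J), div_mul_eq_mul_div]
  exact div_le_div_of_nonneg_right h2 (by positivity)

end GCB
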