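import Pool.Agent.GCA.PrA
import Pool.Agent.GCB.Defs

/-!
# GCB-P-Sum: independence of disjoint sets of bits

`pr_sum`: `(E₁ ⊕ E₂ → Bool) ≃ (E₁ → Bool) × (E₂ → Bool)` (`Equiv.sumArrowEquivProdArrow`), the event is the product of
the two filters (`Finset.card_product`, `Finset.card_bij` or `card_equiv`); `card (E₁ ⊕ E₂) = card E₁ + card E₂`, `pow_add`,
`mul_div_mul_comm`.  `pr_zero`: the filter is `{fun _ => false}`.
-/

open Finset

namespace GCB

open GCA

private theorem pSum_pr_eq {E : Type*} [Fintype E] [DecidableEq E] (R : (E → Bool) → Prop) [DecidablePred R] :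
    pr R = ((univ.filter R).card : ℝ) / 2 ^ Fintype.card E := by
  unfold pr
  congr

theorem pr_sum {E₁ E₂ : Type*} [Fintype E₁] [DecidableEq E₁] [Fintype E₂] [DecidableEq E₂]
    (P : (E₁ → Bool) → Prop) (Q : (E₂ → Bool) → Prop) :
    pr (fun f : E₁ ⊕ E₂ → Bool => P (fun e => f (Sum.inl e)) ∧ Q (fun e => f (Sum.inr e))) = pr P * pr Q := by
  classical
  have h1 : (univ.filter (fun f : E₁ ⊕ E₂ → Bool => P (fun e => f (Sum.inl e)) ∧
      Q (fun e => f (Sum.inr e)))).card = (univ.filter P).card * (univ.filter Q).card := by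
    rw [← card_product]
    refine card_bij (fun f _ => (fun e => f (Sum.inl e), fun e => f (Sum.inr e))) ?_ ?_ ?_
    · intro f hf
      have h := (mem_filter.1 hf).2
      exact mem_product.2 ⟨mem_filter.2 ⟨mem_univ _, h.1⟩, mem_filter.2 ⟨mem_univ _, h.2⟩⟩
    · intro f _ f' _ h
      have h2 := congrArg Prod.fst h
      have h3 := congrArg Prod.snd h
      funext e
      rcases e with e | e
      · exact congrFun h2 e
      · exact congrFun h3 e
    · intro x hx
      have h := mem_product.1 hx
      refine ⟨Sum.elim x.1 x.2, mem_filter.2 ⟨mem_univ _, ?_, ?_⟩, rfl⟩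
      · exact (mem_filter.1 h.1).2
      · exact (mem_filter.1 h.2).2
  rw [pSum_pr_eq, pSum_pr_eq P, pSum_pr_eq Q, h1, Fintype.card_sum, pow_add]
  push_cast
  rw [mul_div_mul_comm]

theorem pr_zero {E : Type*} [Fintype E] [DecidableEq E] :
    pr (fun f : E → Bool => ∀ e, f e = false) = (1 / 2) ^ Fintype.card E := by
  classical
  have h1 : (@univ (E → Bool) _).filter (fun f => ∀ e, f e = false) = {fun _ => false} := by
    ext f
    rw [mem_filter, mem_singleton]
    constructor
    · intro h
      funext e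
      exact h.2 e
    · intro h
      exact ⟨mem_univ _, fun e => by rw [h]⟩
  have h2 : pr (fun f : E → Bool => ∀ e, f e = false) =
      ((((@univ (E → Bool) _).filter (fun f => ∀ e, f e = false))).card : ℝ) / 2 ^ Fintype.card E := by
    unfold pr
    congr
  rw [h2, h1, card_singleton]
  rw [one_div, inv_pow, Nat.cast_one, one_div]

end GCB
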