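import Pool.Agent.GCB.PExp

/-!
# GCB-P-T1: the first way for a triple to be bad

`pr_exp` with `J = I r` (`Fintype.card (I r) = r * 3`), `E₀ = Fin 3`, `g h = (univ.filter (fun i => h i = true)).card - 1` (natural
subtraction), `s = 2 * r`, `lam = 11/10`.  The sum over the eight `h : Fin 3 → Bool` is `4 + 3 lam + lam ^ 2 = 851/100`: the
fibres of `g` over `0, 1, 2` have `4, 3, 1` elements (`decide`), or evaluate the sum directly (`Fintype.sum_eq_..`,
`Fin.consEquiv`, `simp` with `Finset.univ` of `Fin 3 → Bool` computed by `rfl`/`decide`).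
So `pr * ((11/10) ^ 2) ^ r ≤ ((851/800) ^ 3) ^ r`, and `(851/800) ^ 3 ≤ (11/10) ^ 2 * (199/200)` (`norm_num`).
-/

open Finset

namespace GCB

open GCA

private theorem pt1_sum8 (f : ℕ → ℝ) :
    ∑ h : Fin 3 → Bool, f ((univ.filter (fun i => h i = true)).card - 1) =
      4 * f 0 + 3 * f 1 + f 2 := by
  rw [Finset.sum_comp f (fun h : Fin 3 → Bool => (univ.filter (fun i => h i = true)).card - 1)]
  have e : (univ : Finset (Fin 3 → Bool)).image
      (fun h => (univ.filter (fun i => h i = true)).card - 1) = {0, 1, 2} := by decide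
  rw [e, sum_insert (by decide), sum_insert (by decide), sum_singleton]
  have c0 : ((univ : Finset (Fin 3 → Bool)).filter
      (fun h => (univ.filter (fun i => h i = true)).card - 1 = 0)).card = 4 := by decide
  have c1 : ((univ : Finset (Fin 3 → Bool)).filter
      (fun h => (univ.filter (fun i => h i = true)).card - 1 = 1)).card = 3 := by decide
  have c2 : ((univ : Finset (Fin 3 → Bool)).filter
      (fun h => (univ.filter (fun i => h i = true)).card - 1 = 2)).card = 1 := by decide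
  rw [c0, c1, c2]
  simp only [nsmul_eq_mul]
  norm_num
  ring

theorem pr_t1 (r : ℕ) :
    pr (fun f : I r × Fin 3 → Bool => 2 * r < ∑ u, ((univ.filter (fun i => f (u, i) = true)).card - 1)) ≤
      (199 / 200) ^ r := by
  have h := pr_exp (J := I r) (E₀ := Fin 3)
    (fun h : Fin 3 → Bool => (univ.filter (fun i => h i = true)).card - 1) (2 * r)
    (lam := 11 / 10) (by norm_num)
  have h8 := pt1_sum8 (fun k => (11 / 10 : ℝ) ^ k)
  rw [h8] at h
  have hJ : Fintype.card (I r) = 3 * r := by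
    rw [Fintype.card_prod, Fintype.card_fin, Fintype.card_fin, mul_comm]
  rw [hJ, Fintype.card_fin, pow_mul, pow_mul] at h
  set p := pr (fun f : I r × Fin 3 → Bool =>
    2 * r < ∑ u, ((univ.filter (fun i => f (u, i) = true)).card - 1)) with hp
  have h1 : p * ((11 / 10 : ℝ) ^ 2) ^ r ≤
      (((4 * (11 / 10 : ℝ) ^ 0 + 3 * (11 / 10 : ℝ) ^ 1 + (11 / 10 : ℝ) ^ 2) / 2 ^ 3) ^ 3) ^ r := h
  have h2 : (((4 * (11 / 10 : ℝ) ^ 0 + 3 * (11 / 10 : ℝ) ^ 1 + (11 / 10 : ℝ) ^ 2) / 2 ^ 3) ^ 3) ^ r ≤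
      ((11 / 10 : ℝ) ^ 2 * (199 / 200)) ^ r := by
    apply pow_le_pow_left₀ (by norm_num)
    norm_num
  rw [mul_pow] at h2
  have h3 : (0 : ℝ) < ((11 / 10 : ℝ) ^ 2) ^ r := by positivity
  have h4 : p * ((11 / 10 : ℝ) ^ 2) ^ r ≤ (199 / 200) ^ r * ((11 / 10 : ℝ) ^ 2) ^ r := by
    calc p * ((11 / 10 : ℝ) ^ 2) ^ r ≤ _ := h1.trans h2
      _ = (199 / 200) ^ r * ((11 / 10 : ℝ) ^ 2) ^ r := mul_comm _ _
  exact le_of_mul_le_mul_right h4 h3

end GCB
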