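import Pool.Agent.GCA.PrB
import Pool.Agent.GCB.PSum
import Pool.Agent.GCB.PBadPB

/-!
# GCB-P-Three: both tuples are independent and the pair is bad

If `p` or `q` is not injective or the ranges are not disjoint, the event is empty (`IT` contains injectivity).  Otherwise
`φ : {e : Sym2 (I r) // ¬ e.IsDiag} ⊕ ({e : Sym2 (I r) // ¬ e.IsDiag} ⊕ (I r × I r)) → Sym2 (Fin n)`, given by
`Sym2.map p`, `Sym2.map q`, `(a, b) ↦ s(p a, q b)`, is injective (`Sym2.map.injective`; the ranges are disjoint); the event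
implies `∀ e, f e = false` on the first two parts and the event of `pr_badPB` on the third one: `pr_mono`, `pr_inj`,
`pr_sum` twice, `pr_zero`, `Sym2.card_subtype_not_diag : card {e : Sym2 α // ¬ e.IsDiag} = (card α).choose 2`,
`card (I r) = 3 * r`.  (Classical decidability instances of the filter in `BadP` and in `pr_badPB`: `convert` or `simp only`.)
-/

open Finset

namespace GCB

open GCA

private abbrev pThree_E (r : ℕ) := {e : Sym2 (I r) // ¬ e.IsDiag}

private def pThree_phi {n : ℕ} (r : ℕ) (p q : I r → Fin n) :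
    pThree_E r ⊕ (pThree_E r ⊕ (I r × I r)) → Sym2 (Fin n) :=
  Sum.elim (fun e => Sym2.map p e.1) (Sum.elim (fun e => Sym2.map q e.1) (fun x => s(p x.1, q x.2)))

private theorem pThree_mem_map {α β : Type*} {f : α → β} {e : Sym2 α} {b : β} (h : b ∈ Sym2.map f e) :
    ∃ a, f a = b := by
  obtain ⟨a, _, ha⟩ := Sym2.mem_map.1 h
  exact ⟨a, ha⟩

private theorem pThree_inj {n : ℕ} (r : ℕ) (p q : I r → Fin n) (hp : Function.Injective p)
    (hq : Function.Injective q) (hpq : ∀ a b, p a ≠ q b) : Function.Injective (pThree_phi r p q) := by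
  have h12 : ∀ e e' : Sym2 (I r), Sym2.map p e ≠ Sym2.map q e' := by
    intro e e' h
    induction e using Sym2.ind with
    | _ a b =>
      have h1 : p a ∈ Sym2.map q e' := by
        rw [← h, Sym2.map_mk]
        exact Sym2.mem_mk_left _ _
      obtain ⟨c, hc⟩ := pThree_mem_map h1
      exact hpq a c hc.symm
  have h13 : ∀ (e : Sym2 (I r)) (x : I r × I r), Sym2.map p e ≠ s(p x.1, q x.2) := by
    intro e x h
    have h1 : q x.2 ∈ Sym2.map p e := by
      rw [h]
      exact Sym2.mem_mk_right _ _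
    obtain ⟨c, hc⟩ := pThree_mem_map h1
    exact hpq c x.2 hc
  have h23 : ∀ (e : Sym2 (I r)) (x : I r × I r), Sym2.map q e ≠ s(p x.1, q x.2) := by
    intro e x h
    have h1 : p x.1 ∈ Sym2.map q e := by
      rw [h]
      exact Sym2.mem_mk_left _ _
    obtain ⟨c, hc⟩ := pThree_mem_map h1
    exact hpq x.1 c hc.symm
  rintro (e | e | x) (e' | e' | x') h
  · exact congrArg Sum.inl (Subtype.ext (Sym2.map.injective hp h))
  · exact absurd h (h12 e.1 e'.1)
  · exact absurd h (h13 e.1 x')
  · exact absurd h.symm (h12 e'.1 e.1)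
  · exact congrArg (fun y => Sum.inr (Sum.inl y)) (Subtype.ext (Sym2.map.injective hq h))
  · exact absurd h (h23 e.1 x')
  · exact absurd h.symm (h13 e'.1 x)
  · exact absurd h.symm (h23 e'.1 x)
  · have h' : s(p x.1, q x.2) = s(p x'.1, q x'.2) := h
    rw [Sym2.eq_iff] at h'
    rcases h' with ⟨h1, h2⟩ | ⟨h1, _⟩
    · exact congrArg (fun y => Sum.inr (Sum.inr y)) (Prod.ext (hp h1) (hq h2))
    · exact absurd h1 (hpq _ _)

private theorem pThree_gen {E E₁ E₂ E₃ : Type*} [Fintype E] [DecidableEq E] [Fintype E₁] [DecidableEq E₁]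
    [Fintype E₂] [DecidableEq E₂] [Fintype E₃] [DecidableEq E₃] (φ : E₁ ⊕ (E₂ ⊕ E₃) → E)
    (hφ : Function.Injective φ) (R : (E₃ → Bool) → Prop) :
    pr (fun ω : E → Bool => (∀ e, ω (φ (Sum.inl e)) = false) ∧ (∀ e, ω (φ (Sum.inr (Sum.inl e))) = false) ∧
      R (fun e => ω (φ (Sum.inr (Sum.inr e))))) =
      (1 / 2) ^ Fintype.card E₁ * ((1 / 2) ^ Fintype.card E₂ * pr R) := by
  rw [← pr_zero (E := E₁), ← pr_zero (E := E₂),
    ← pr_sum (fun f : E₂ → Bool => ∀ e, f e = false) R,
    ← pr_sum (fun f : E₁ → Bool => ∀ e, f e = false)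
      (fun f : E₂ ⊕ E₃ → Bool => (∀ e, f (Sum.inl e) = false) ∧ R (fun e => f (Sum.inr e))),
    ← pr_inj φ hφ]

theorem pr_three {n : ℕ} (r m : ℕ) (p q : I r → Fin n) :
    pr (fun ω : Sym2 (Fin n) → Bool => IT ω univ p ∧ IT ω univ q ∧ (∀ a b, p a ≠ q b) ∧ BadP r m p q ω) ≤
      (1 / 2) ^ (2 * (3 * r).choose 2) * (2 ^ r * (4 * (199 / 200) ^ r) ^ (m + 1)) := by
  classical
  by_cases hall : Function.Injective p ∧ Function.Injective q ∧ ∀ a b, p a ≠ q b
  · obtain ⟨hp, hq, hpq⟩ := hall
    have hbad := pr_badPB r m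
    obtain ⟨R, hR⟩ : ∃ R : (I r × I r → Bool) → Prop, R = fun f =>
      m < (univ.filter (fun t : Fin r => BadT r (fun (u : I r) (i : Fin 3) => f (u, (t, i))))).card :=
      ⟨_, rfl⟩
    rw [← hR] at hbad
    have h1 : pr (fun ω : Sym2 (Fin n) → Bool =>
        IT ω univ p ∧ IT ω univ q ∧ (∀ a b, p a ≠ q b) ∧ BadP r m p q ω) ≤
        pr (fun ω : Sym2 (Fin n) → Bool =>
          (∀ e, ω (pThree_phi r p q (Sum.inl e)) = false) ∧
          (∀ e, ω (pThree_phi r p q (Sum.inr (Sum.inl e))) = false) ∧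
          R (fun e => ω (pThree_phi r p q (Sum.inr (Sum.inr e))))) := by
      apply pr_mono
      rintro ω ⟨hp1, hq1, _, hb⟩
      have key : ∀ (v : I r → Fin n), IT ω univ v → ∀ e : pThree_E r, ω (Sym2.map v e.1) = false := by
        rintro v hv ⟨e, he⟩
        induction e using Sym2.ind with
        | _ a b =>
          have hab : a ≠ b := fun h => he (Sym2.mk_isDiag_iff.2 h)
          show ω (Sym2.map v s(a, b)) = false
          rw [Sym2.map_mk]
          exact (hv.2 a b hab).2
      rw [hR]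
      exact ⟨fun e => key p hp1 e, fun e => key q hq1 e, hb⟩
    refine le_trans h1 ?_
    rw [pThree_gen (pThree_phi r p q) (pThree_inj r p q hp hq hpq) R, Sym2.card_subtype_not_diag]
    have hc : Fintype.card (I r) = 3 * r := by
      rw [Fintype.card_prod, Fintype.card_fin, Fintype.card_fin, mul_comm]
    rw [hc, two_mul, pow_add, mul_assoc]
    refine mul_le_mul_of_nonneg_left ?_ (by positivity)
    exact mul_le_mul_of_nonneg_left hbad (by positivity)
  · have h1 : pr (fun ω : Sym2 (Fin n) → Bool =>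
        IT ω univ p ∧ IT ω univ q ∧ (∀ a b, p a ≠ q b) ∧ BadP r m p q ω) ≤
        pr (fun _ : Sym2 (Fin n) → Bool => False) := by
      apply pr_mono
      rintro ω ⟨hp1, hq1, hpq, _⟩
      apply hall
      refine ⟨?_, ?_, hpq⟩
      · intro a b h
        by_contra hab
        exact (hp1.2 a b hab).1 h
      · intro a b h
        by_contra hab
        exact (hq1.2 a b hab).1 h
    rw [pr_false] at h1
    exact le_trans h1 (by positivity)

end GCB
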