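import Pool.Agent.GCA.Hoef
import Pool.Agent.GCA.PrB
import Pool.Agent.GCB.Defs

/-!
# GCB-P-Typ: a random graph is pseudo-random

For disjoint `S`, `T` with `N = card S * card T > 0` the pairs `s(u, v)`, `u ∈ S`, `v ∈ T` are distinct, so `pr_inj` along
`↥(S ×ˢ T) → Sym2 (Fin n)` and `hoef_true` with `d = δ N` give
`pr (#{e | ω = true} ≥ N / 2 + δ N) ≤ exp (-(2 (δ N) ^ 2 / N)) = exp (-(2 δ ^ 2 N)) ≤ exp (-(2 n))` (`N ≥ τ ^ 2`).
If `Typ` fails for `(S, T)` then `#false < (1/2 - δ) N`, so `#true = N - #false > N / 2 + δ N` (`N = 0` is impossible then).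
Union bound over all `(S, T) ∈ univ ×ˢ univ`: `4 ^ n exp (-(2 n)) ≤ (3/5) ^ n` because `4 ≤ (3/5) exp 2`
(`Real.exp_one_gt_d9`: `exp 1 > 2.7182`, `exp 2 = (exp 1) ^ 2 > 7.38`).
-/

open Finset

namespace GCB

open GCA

/-- between large disjoint sets almost half of the pairs are not in `Ω` -/
def Typ {n : ℕ} (δ τ : ℝ) (ω : Sym2 (Fin n) → Bool) : Prop :=
  ∀ S T : Finset (Fin n), Disjoint S T → τ ≤ S.card → τ ≤ T.card →
    (1 / 2 - δ) * ((S.card : ℝ) * T.card) ≤ (((S ×ˢ T).filter (fun e => ω s(e.1, e.2) = false)).card : ℝ)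

private theorem PTyp_not {I : Type*} [Fintype I] [DecidableEq I] (Q : (I → Bool) → Prop) :
    pr (fun f : I → Bool => Q (fun i => !(f i))) = pr Q := by
  classical
  unfold pr
  congr 2
  refine Finset.card_equiv (Equiv.piCongrRight fun _ : I => Equiv.boolNot) fun f => ?_
  rw [mem_filter, mem_filter]
  exact ⟨fun h => ⟨mem_univ _, h.2⟩, fun h => ⟨mem_univ _, h.2⟩⟩

private theorem PTyp_hoef_true {I : Type*} [Fintype I] [DecidableEq I] (d : ℝ) (hd : 0 ≤ d) :
    pr (fun f : I → Bool => (Fintype.card I : ℝ) / 2 + d ≤ ((univ.filter (fun i => f i = true)).card : ℝ))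
      ≤ Real.exp (-(2 * d ^ 2 / Fintype.card I)) := by
  classical
  have h1 := hoef (I := I) d hd
  have h2 := PTyp_not (I := I) (fun f : I → Bool =>
    (Fintype.card I : ℝ) / 2 + d ≤ ((univ.filter (fun i => f i = true)).card : ℝ))
  rw [← h2]
  refine le_trans (pr_mono fun f hf => ?_) h1
  simpa using hf

private theorem PTyp_pair {n : ℕ} {δ τ : ℝ} (hδ : 0 < δ) (hτ : 0 ≤ τ)
    (h : (n : ℝ) ≤ (δ * τ) ^ 2) (S T : Finset (Fin n)) :
    pr (fun ω : Sym2 (Fin n) → Bool => Disjoint S T ∧ τ ≤ S.card ∧ τ ≤ T.card ∧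
      (((S ×ˢ T).filter (fun e => ω s(e.1, e.2) = false)).card : ℝ) <
        (1 / 2 - δ) * ((S.card : ℝ) * T.card)) ≤ Real.exp (-(2 * (n : ℝ))) := by
  classical
  by_cases hc : Disjoint S T ∧ τ ≤ S.card ∧ τ ≤ T.card ∧ 0 < S.card * T.card
  · obtain ⟨hdis, hS, hT, hN⟩ := hc
    let I : Type := ↥(S ×ˢ T)
    let φ : I → Sym2 (Fin n) := fun e => s(e.1.1, e.1.2)
    have hφ : Function.Injective φ := by
      rintro ⟨⟨a, b⟩, hab⟩ ⟨⟨a', b'⟩, hab'⟩ he
      rw [mem_product] at hab hab'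
      have he' : s(a, b) = s(a', b') := he
      rw [Sym2.eq_iff] at he'
      rcases he' with ⟨h1, h2⟩ | ⟨h1, h2⟩
      · subst h1
        subst h2
        rfl
      · exfalso
        subst h1
        exact (Finset.disjoint_left.1 hdis) hab.1 hab'.2
    have hcardI : Fintype.card I = S.card * T.card := by
      rw [Fintype.card_coe, card_product]
    set N : ℝ := (S.card : ℝ) * T.card with hNdef
    have hN0 : 0 < N := by
      rw [hNdef]
      exact_mod_cast hN
    have hcardI' : (Fintype.card I : ℝ) = N := by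
      rw [hcardI, hNdef]
      push_cast
      rfl
    have h1 := PTyp_hoef_true (I := I) (δ * N) (by positivity)
    rw [hcardI', ← pr_inj φ hφ] at h1
    refine le_trans (pr_mono fun ω hω => ?_) (h1.trans ?_)
    · have hω4 := hω.2.2.2
      have e1 : ((S ×ˢ T).filter (fun e => ω s(e.1, e.2) = false)).card =
          (univ.filter (fun i : I => ω (φ i) = false)).card := by
        rw [← Finset.card_map (Function.Embedding.subtype fun x => x ∈ S ×ˢ T)]
        congr 1
        ext e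
        constructor
        · intro he
          rw [mem_filter] at he
          rw [mem_map]
          exact ⟨⟨e, he.1⟩, by rw [mem_filter]; exact ⟨mem_univ _, he.2⟩, rfl⟩
        · intro he
          rw [mem_map] at he
          obtain ⟨i, hi, rfl⟩ := he
          rw [mem_filter] at hi
          rw [mem_filter]
          exact ⟨i.2, hi.2⟩
      have e2 : (univ.filter (fun i : I => ω (φ i) = true)).card +
          (univ.filter (fun i : I => ω (φ i) = false)).card = Fintype.card I := by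
        have e3 := Finset.card_filter_add_card_filter_not (s := (univ : Finset I))
          (fun i : I => ω (φ i) = true)
        rw [card_univ] at e3
        rw [← e3]
        congr 2
        ext i
        simp
      have e4 : ((univ.filter (fun i : I => ω (φ i) = true)).card : ℝ) +
          ((univ.filter (fun i : I => ω (φ i) = false)).card : ℝ) = N := by
        rw [← hcardI']
        exact_mod_cast e2
      rw [e1] at hω4
      have e5 : (((univ.filter (fun i : I => ω (φ i) = false)).card : ℕ) : ℝ) <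
          (1 / 2 - δ) * N := hω4
      have e6 : N / 2 + δ * N ≤ ((univ.filter (fun i : I => ω (φ i) = true)).card : ℝ) := by
        linarith
      exact e6
    · refine Real.exp_le_exp.2 ?_
      have hτN : τ ^ 2 ≤ N := by
        rw [hNdef, sq]
        exact mul_le_mul hS hT hτ (by positivity)
      have h2 : 2 * (δ * N) ^ 2 / N = 2 * (δ ^ 2 * N) := by
        field_simp
      rw [h2]
      have h3 : (n : ℝ) ≤ δ ^ 2 * N := by
        calc (n : ℝ) ≤ (δ * τ) ^ 2 := h
          _ = δ ^ 2 * τ ^ 2 := by ring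
          _ ≤ δ ^ 2 * N := mul_le_mul_of_nonneg_left hτN (sq_nonneg δ)
      linarith
  · refine le_trans (pr_mono (Q := fun _ => False) fun ω hω => ?_) ?_
    · obtain ⟨h1, h2, h3, h4⟩ := hω
      apply hc
      refine ⟨h1, h2, h3, ?_⟩
      rcases Nat.eq_zero_or_pos (S.card * T.card) with h0 | h0
      · exfalso
        have h5 : (S.card : ℝ) * T.card = 0 := by exact_mod_cast h0
        rw [h5, mul_zero] at h4
        have h6 : (0 : ℝ) ≤ (((S ×ˢ T).filter (fun e => ω s(e.1, e.2) = false)).card : ℝ) := by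
          positivity
        linarith
      · exact h0
    · rw [pr_false]
      exact (Real.exp_pos _).le

theorem pr_typ (n : ℕ) {δ τ : ℝ} (hδ : 0 < δ) (hτ : 0 ≤ τ) (h : (n : ℝ) ≤ (δ * τ) ^ 2) :
    pr (fun ω : Sym2 (Fin n) → Bool => ¬ Typ δ τ ω) ≤ (3 / 5) ^ n := by
  classical
  have h1 : pr (fun ω : Sym2 (Fin n) → Bool => ¬ Typ δ τ ω) ≤
      ∑ ST : Finset (Fin n) × Finset (Fin n), pr (fun ω : Sym2 (Fin n) → Bool =>
        Disjoint ST.1 ST.2 ∧ τ ≤ ST.1.card ∧ τ ≤ ST.2.card ∧
        (((ST.1 ×ˢ ST.2).filter (fun e => ω s(e.1, e.2) = false)).card : ℝ) <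
          (1 / 2 - δ) * ((ST.1.card : ℝ) * ST.2.card)) := by
    refine le_trans (pr_mono fun ω hω => ?_) (pr_exists univ _)
    unfold Typ at hω
    push Not at hω
    obtain ⟨S, T, h2, h3, h4, h5⟩ := hω
    exact ⟨(S, T), mem_univ _, h2, h3, h4, h5⟩
  have h2 : ∑ ST : Finset (Fin n) × Finset (Fin n), pr (fun ω : Sym2 (Fin n) → Bool =>
        Disjoint ST.1 ST.2 ∧ τ ≤ ST.1.card ∧ τ ≤ ST.2.card ∧
        (((ST.1 ×ˢ ST.2).filter (fun e => ω s(e.1, e.2) = false)).card : ℝ) <
          (1 / 2 - δ) * ((ST.1.card : ℝ) * ST.2.card)) ≤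
      ∑ _ST : Finset (Fin n) × Finset (Fin n), Real.exp (-(2 * (n : ℝ))) :=
    sum_le_sum fun ST _ => PTyp_pair hδ hτ h ST.1 ST.2
  have h3 : ∑ _ST : Finset (Fin n) × Finset (Fin n), Real.exp (-(2 * (n : ℝ))) =
      (4 * Real.exp (-2)) ^ n := by
    rw [sum_const, card_univ, Fintype.card_prod, Fintype.card_finset, Fintype.card_fin,
      nsmul_eq_mul, mul_pow, ← Real.exp_nat_mul]
    have e1 : (((2 ^ n * 2 ^ n : ℕ)) : ℝ) = 4 ^ n := by
      push_cast
      rw [← mul_pow]
      norm_num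
    have e2 : -(2 * (n : ℝ)) = (n : ℝ) * (-2) := by ring
    rw [e1, e2]
  have h4 : 4 * Real.exp (-2) ≤ 3 / 5 := by
    have e1 : Real.exp 2 = Real.exp 1 * Real.exp 1 := by
      rw [← Real.exp_add]
      norm_num
    have e2 := Real.exp_one_gt_d9
    have e3 : (20 / 3 : ℝ) ≤ Real.exp 2 := by
      rw [e1]
      nlinarith
    rw [Real.exp_neg, ← div_eq_mul_inv, div_le_iff₀ (Real.exp_pos 2)]
    linarith
  calc pr (fun ω : Sym2 (Fin n) → Bool => ¬ Typ δ τ ω) ≤ _ := h1
    _ ≤ _ := h2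
    _ = (4 * Real.exp (-2)) ^ n := h3
    _ ≤ (3 / 5) ^ n := pow_le_pow_left₀ (by positivity) h4 n

end GCB
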